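import Mathlib

/-!
# 2-divisible graphs, odd holes and bowties

A graph is 2-divisible if and only if it has no odd hole and every induced subgraph `H` with
`ω(H) ≥ 3` and `χ(H) ≥ 2 ω(H) - 1`, in which every vertex is the intersection of two maximum
cliques, has a partition into two parts of smaller clique number.  A bowtie consists of two
triangles with exactly one common vertex.
-/

set_option autoImplicit false

open scoped Classical

namespace Pool.Agent.Results.MP_e14f41_lc.BowtieFree

variable {V : Type}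

/-- The clique number of the subgraph induced on `S`. -/
noncomputable def om (G : SimpleGraph V) (S : Finset V) : ℕ :=
  (S.powerset.filter fun K : Finset V => G.IsClique (K : Set V)).sup Finset.card

/-- The subgraph induced on `S` has an edge. -/
def HasEdge (G : SimpleGraph V) (S : Finset V) : Prop := ∃ u ∈ S, ∃ v ∈ S, G.Adj u v

/-- `S` has a partition into two sets (one may be empty) whose clique numbers are smaller than the
clique number of `S`. -/
def Splits (G : SimpleGraph V) (S : Finset V) : Prop :=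
  ∃ A B : Finset V, A ∪ B = S ∧ Disjoint A B ∧ om G A < om G S ∧ om G B < om G S

/-- `G` is 2-divisible: every (finite) induced subgraph with an edge splits. -/
def TwoDivisible (G : SimpleGraph V) : Prop := ∀ S : Finset V, HasEdge G S → Splits G S

/-- `f 0, ..., f (L - 1)` are the vertices of an odd hole: an induced cycle of odd length `L ≥ 5`. -/
def OddHole (G : SimpleGraph V) (L : ℕ) (f : ℕ → V) : Prop :=
  5 ≤ L ∧ Odd L ∧ ∀ i j, i < j → j < L →
    f i ≠ f j ∧ (G.Adj (f i) (f j) ↔ j = i + 1 ∨ (i = 0 ∧ j + 1 = L))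

/-- `v` is the centre of a bowtie in `S`: there are two triangles `v a b` and `v c d` with
`a, b, c, d` in `S` whose only common vertex is `v`. -/
def BowtieAt (G : SimpleGraph V) (S : Finset V) (v : V) : Prop :=
  ∃ a ∈ S, ∃ b ∈ S, ∃ c ∈ S, ∃ d ∈ S, G.Adj v a ∧ G.Adj v b ∧ G.Adj a b ∧ G.Adj v c ∧
    G.Adj v d ∧ G.Adj c d ∧ a ≠ c ∧ a ≠ d ∧ b ≠ c ∧ b ≠ d

/-- `K` is a maximum clique of the subgraph induced on `S`. -/
def IsMaxClique (G : SimpleGraph V) (S K : Finset V) : Prop :=
  K ⊆ S ∧ G.IsClique (K : Set V) ∧ K.card = om G S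

theorem le_om {G : SimpleGraph V} {S K : Finset V} (h : K ⊆ S) (hK : G.IsClique (K : Set V)) :
    K.card ≤ om G S :=
  Finset.le_sup (f := Finset.card) (Finset.mem_filter.2 ⟨Finset.mem_powerset.2 h, hK⟩)

theorem exists_om (G : SimpleGraph V) (S : Finset V) :
    ∃ K : Finset V, K ⊆ S ∧ G.IsClique (K : Set V) ∧ K.card = om G S := by
  have hne : (S.powerset.filter fun K : Finset V => G.IsClique (K : Set V)).Nonempty :=
    ⟨∅, Finset.mem_filter.2 ⟨Finset.empty_mem_powerset S, by simp⟩⟩
  obtain ⟨K, hK, h⟩ := Finset.exists_mem_eq_sup _ hne Finset.card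
  rw [Finset.mem_filter, Finset.mem_powerset] at hK
  exact ⟨K, hK.1, hK.2, h.symm⟩

theorem om_mono {G : SimpleGraph V} {S T : Finset V} (h : S ⊆ T) : om G S ≤ om G T := by
  obtain ⟨K, h1, h2, h3⟩ := exists_om G S
  rw [← h3]
  exact le_om (h1.trans h) h2

theorem om_lt {G : SimpleGraph V} {A : Finset V} {k : ℕ}
    (h : ∀ K : Finset V, K ⊆ A → G.IsClique (K : Set V) → K.card < k) : om G A < k := by
  obtain ⟨K, h1, h2, h3⟩ := exists_om G A
  rw [← h3]
  exact h K h1 h2

theorem two_le_om {G : SimpleGraph V} {S : Finset V} (h : HasEdge G S) : 2 ≤ om G S := by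
  obtain ⟨u, hu, v, hv, huv⟩ := h
  have h1 : ({u, v} : Finset V).card = 2 := Finset.card_pair huv.ne
  rw [← h1]
  refine le_om ?_ ?_
  · intro x hx
    rw [Finset.mem_insert, Finset.mem_singleton] at hx
    rcases hx with rfl | rfl
    · exact hu
    · exact hv
  · rw [Finset.coe_pair, SimpleGraph.isClique_pair]
    exact fun _ => huv

theorem card_le_one {G : SimpleGraph V} {M K : Finset V} (h : ¬ HasEdge G M) (hK : K ⊆ M)
    (hc : G.IsClique (K : Set V)) : K.card ≤ 1 := by
  by_contra hcon
  push Not at hcon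
  obtain ⟨a, ha, b, hb, hab⟩ := Finset.one_lt_card.1 hcon
  exact h ⟨a, hK ha, b, hK hb, hc ha hb hab⟩

/-- A proper subset of a minimal set which does not split has a partition into two parts without
cliques of size `k`. -/
theorem weak {G : SimpleGraph V} {S : Finset V} (hk : 2 ≤ om G S)
    (ih : ∀ T : Finset V, T ⊂ S → HasEdge G T → Splits G T) {T : Finset V} (hT : T ⊂ S) :
    ∃ A B : Finset V, A ∪ B = T ∧ Disjoint A B ∧ om G A < om G S ∧ om G B < om G S := by
  by_cases he : HasEdge G T
  · obtain ⟨A, B, h1, h2, h3, h4⟩ := ih T hT he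
    have h5 := om_mono (G := G) hT.subset
    exact ⟨A, B, h1, h2, h3.trans_le h5, h4.trans_le h5⟩
  · refine ⟨T, ∅, Finset.union_empty T, Finset.disjoint_empty_right T, ?_, ?_⟩
    · exact om_lt fun K h1 h2 => lt_of_le_of_lt (card_le_one he h1 h2) (by omega)
    · refine om_lt fun K h1 h2 => ?_
      rw [Finset.subset_empty.1 h1, Finset.card_empty]
      omega

theorem splits_symm {G : SimpleGraph V} {S A B : Finset V} (h1 : A ∪ B = S)
    (h2 : Disjoint A B) (h3 : om G A < om G S) (h4 : om G B < om G S) : Splits G S :=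
  ⟨A, B, h1, h2, h3, h4⟩

theorem inter_of {G : SimpleGraph V} {S : Finset V} (hk : 2 ≤ om G S)
    (ih : ∀ T : Finset V, T ⊂ S → HasEdge G T → Splits G T) (hn : ¬ Splits G S) (v : V)
    (hv : v ∈ S) :
    ∃ K L : Finset V, IsMaxClique G S K ∧ IsMaxClique G S L ∧ K ∩ L = {v} := by
  obtain ⟨A, B, h1, h2, h3, h4⟩ := weak hk ih (Finset.erase_ssubset hv)
  have hvA : v ∉ A := fun h => (Finset.mem_erase.1 (h1 ▸ Finset.mem_union_left B h)).1 rfl
  have hvB : v ∉ B := fun h => (Finset.mem_erase.1 (h1 ▸ Finset.mem_union_right A h)).1 rfl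
  have hA : A ⊆ S := (Finset.subset_union_left.trans h1.subset).trans (Finset.erase_subset v S)
  have hB : B ⊆ S := (Finset.subset_union_right.trans h1.subset).trans (Finset.erase_subset v S)
  have key : ∀ C D : Finset V, C ∪ D = S.erase v → Disjoint C D → C ⊆ S → v ∉ C → v ∉ D →
      om G C < om G S → om G D < om G S →
      ∃ K : Finset V, K ⊆ insert v C ∧ G.IsClique (K : Set V) ∧ K.card = om G S ∧ v ∈ K := by
    intro C D c1 c2 c3 c4 c5 c6 c7
    obtain ⟨K, k1, k2, k3⟩ := exists_om G (insert v C)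
    have hle : om G (insert v C) ≤ om G S := om_mono (Finset.insert_subset hv c3)
    have hge : om G S ≤ om G (insert v C) := by
      by_contra hcon
      push Not at hcon
      refine hn ⟨insert v C, D, ?_, ?_, hcon, c7⟩
      · rw [Finset.insert_union, c1, Finset.insert_erase hv]
      · rw [Finset.disjoint_insert_left]
        exact ⟨c5, c2⟩
    refine ⟨K, k1, k2, k3.trans (le_antisymm hle hge), ?_⟩
    by_contra hvK
    have h5 : K ⊆ C := fun x hx => by
      rcases Finset.mem_insert.1 (k1 hx) with h | h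
      · exact absurd (h ▸ hx) hvK
      · exact h
    have h6 := le_om h5 k2
    omega
  obtain ⟨K, k1, k2, k3, k4⟩ := key A B h1 h2 hA hvA hvB h3 h4
  obtain ⟨L, l1, l2, l3, l4⟩ :=
    key B A (by rw [Finset.union_comm]; exact h1) h2.symm hB hvB hvA h4 h3
  refine ⟨K, L, ⟨k1.trans (Finset.insert_subset hv hA), k2, k3⟩,
    ⟨l1.trans (Finset.insert_subset hv hB), l2, l3⟩, ?_⟩
  ext x
  rw [Finset.mem_inter, Finset.mem_singleton]
  constructor
  · rintro ⟨hx, hx'⟩
    rcases Finset.mem_insert.1 (k1 hx) with h | h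
    · exact h
    · rcases Finset.mem_insert.1 (l1 hx') with h' | h'
      · exact h'
      · exact absurd h' (Finset.disjoint_left.1 h2 h)
  · rintro rfl
    exact ⟨k4, l4⟩

/-- A closed walk of length `L` in `S`. -/
def Closed (G : SimpleGraph V) (S : Finset V) (L : ℕ) (f : ℕ → V) : Prop :=
  (∀ i, f i ∈ S) ∧ (∀ i, i < L → G.Adj (f i) (f (i + 1))) ∧ f L = f 0

/-- Cutting a closed walk at a repeated vertex. -/
theorem cut_eq {G : SimpleGraph V} {S : Finset V} {L : ℕ} {f : ℕ → V} (h : Closed G S L f)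
    {i j : ℕ} (hij : i < j) (hj : j < L) (he : f i = f j) :
    (∃ g, Closed G S (j - i) g) ∧ ∃ g, Closed G S (L - (j - i)) g := by
  obtain ⟨h1, h2, h3⟩ := h
  constructor
  · refine ⟨fun k => f (i + k), fun k => h1 _, fun k hk => h2 (i + k) (by omega), ?_⟩
    show f (i + (j - i)) = f (i + 0)
    rw [Nat.add_sub_cancel' hij.le, Nat.add_zero, he]
  · refine ⟨fun k => if k ≤ i then f k else f (k + (j - i)), fun k => ?_, fun k hk => ?_, ?_⟩
    · show (if k ≤ i then f k else f (k + (j - i))) ∈ S
      split_ifs <;> exact h1 _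
    · show G.Adj (if k ≤ i then f k else f (k + (j - i)))
        (if k + 1 ≤ i then f (k + 1) else f (k + 1 + (j - i)))
      rcases lt_trichotomy k i with hki | hki | hki
      · rw [if_pos hki.le, if_pos (by omega)]
        exact h2 k (by omega)
      · rw [if_pos hki.le, if_neg (by omega), hki, he]
        have := h2 j hj
        rwa [show i + 1 + (j - i) = j + 1 by omega]
      · rw [if_neg (by omega), if_neg (by omega)]
        have := h2 (k + (j - i)) (by omega)
        rwa [show k + 1 + (j - i) = k + (j - i) + 1 by omega]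
    · show (if L - (j - i) ≤ i then f (L - (j - i)) else f (L - (j - i) + (j - i))) =
        if 0 ≤ i then f 0 else f (0 + (j - i))
      rw [if_neg (by omega), if_pos (Nat.zero_le _), Nat.sub_add_cancel (by omega), h3]

/-- Cutting a closed walk at a chord. -/
theorem cut_adj {G : SimpleGraph V} {S : Finset V} {L : ℕ} {f : ℕ → V} (h : Closed G S L f)
    {i j : ℕ} (hij : i < j) (hj : j < L) (he : G.Adj (f i) (f j)) :
    (∃ g, Closed G S (j - i + 1) g) ∧ ∃ g, Closed G S (L - (j - i) + 1) g := by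
  obtain ⟨h1, h2, h3⟩ := h
  constructor
  · refine ⟨fun k => if k ≤ j - i then f (i + k) else f i, fun k => ?_, fun k hk => ?_, ?_⟩
    · show (if k ≤ j - i then f (i + k) else f i) ∈ S
      split_ifs <;> exact h1 _
    · show G.Adj (if k ≤ j - i then f (i + k) else f i)
        (if k + 1 ≤ j - i then f (i + (k + 1)) else f i)
      rw [if_pos (by omega)]
      by_cases hk' : k + 1 ≤ j - i
      · rw [if_pos hk']
        exact h2 (i + k) (by omega)
      · rw [if_neg hk', show i + k = j by omega]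
        exact he.symm
    · show (if j - i + 1 ≤ j - i then f (i + (j - i + 1)) else f i) =
        if 0 ≤ j - i then f (i + 0) else f i
      rw [if_neg (by omega), if_pos (Nat.zero_le _), Nat.add_zero]
  · refine ⟨fun k => if k ≤ i then f k else f (k + (j - i) - 1), fun k => ?_, fun k hk => ?_, ?_⟩
    · show (if k ≤ i then f k else f (k + (j - i) - 1)) ∈ S
      split_ifs <;> exact h1 _
    · show G.Adj (if k ≤ i then f k else f (k + (j - i) - 1))
        (if k + 1 ≤ i then f (k + 1) else f (k + 1 + (j - i) - 1))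
      rcases lt_trichotomy k i with hki | hki | hki
      · rw [if_pos hki.le, if_pos (by omega)]
        exact h2 k (by omega)
      · rw [if_pos hki.le, if_neg (by omega), hki,
          show i + 1 + (j - i) - 1 = j by omega]
        exact he
      · rw [if_neg (by omega), if_neg (by omega)]
        have := h2 (k + (j - i) - 1) (by omega)
        rwa [show k + (j - i) - 1 + 1 = k + 1 + (j - i) - 1 by omega] at this
    · show (if L - (j - i) + 1 ≤ i then f (L - (j - i) + 1)
          else f (L - (j - i) + 1 + (j - i) - 1)) = if 0 ≤ i then f 0 else f (0 + (j - i) - 1)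
      rw [if_neg (by omega), if_pos (Nat.zero_le _),
        show L - (j - i) + 1 + (j - i) - 1 = L by omega, h3]

/-- A set without triangles and with an odd closed walk contains an odd hole. -/
theorem hole_of {G : SimpleGraph V} {S : Finset V} (h3 : om G S ≤ 2)
    (hw : ∃ L, Odd L ∧ ∃ f, Closed G S L f) : ∃ L f, OddHole G L f := by
  obtain ⟨hodd, f, hf⟩ := Nat.find_spec hw
  have hmin : ∀ m, m < Nat.find hw → Odd m → ¬ ∃ g, Closed G S m g := fun m hm ho hg =>
    Nat.find_min hw hm ⟨ho, hg⟩
  set L := Nat.find hw with hL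
  obtain ⟨f1, f2, f3⟩ := hf
  have hL1 : L ≠ 1 := by
    intro h
    have h5 := f2 0 (by omega)
    rw [h] at f3
    rw [Nat.zero_add, f3] at h5
    exact G.loopless.irrefl _ h5
  have hL3 : L ≠ 3 := by
    intro h
    have a1 := f2 0 (by omega)
    have a2 := f2 1 (by omega)
    have a3 := f2 2 (by omega)
    rw [h] at f3
    rw [f3] at a3
    have hcl : G.IsClique (({f 0, f 1, f 2} : Finset V) : Set V) := by
      intro x hx y hy hxy
      simp only [Finset.coe_insert, Finset.coe_singleton, Set.mem_insert_iff,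
        Set.mem_singleton_iff] at hx hy
      rcases hx with rfl | rfl | rfl <;> rcases hy with rfl | rfl | rfl
      · exact absurd rfl hxy
      · exact a1
      · exact a3.symm
      · exact a1.symm
      · exact absurd rfl hxy
      · exact a2
      · exact a3
      · exact a2.symm
      · exact absurd rfl hxy
    have hsub : ({f 0, f 1, f 2} : Finset V) ⊆ S := by
      intro x hx
      simp only [Finset.mem_insert, Finset.mem_singleton] at hx
      rcases hx with rfl | rfl | rfl <;> exact f1 _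
    have h5 := le_om hsub hcl
    rw [Finset.card_eq_three.2 ⟨f 0, f 1, f 2, a1.ne, a3.ne', a2.ne, rfl⟩] at h5
    omega
  refine ⟨L, f, ?_, hodd, fun i j hij hj => ⟨fun he => ?_, fun he => ?_, fun he => ?_⟩⟩
  · obtain ⟨k, hk⟩ := hodd
    omega
  · obtain ⟨c1, c2⟩ := cut_eq ⟨f1, f2, f3⟩ hij hj he
    rcases Nat.even_or_odd (j - i) with h5 | h5
    · refine hmin (L - (j - i)) (by omega) ?_ c2
      exact Nat.Odd.sub_even (by omega) hodd h5
    · exact hmin (j - i) (by omega) h5 c1
  · by_contra hcon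
    push Not at hcon
    obtain ⟨n1, n2⟩ := hcon
    obtain ⟨c1, c2⟩ := cut_adj ⟨f1, f2, f3⟩ hij hj he
    have hd : j - i + 1 < L := by
      by_contra h6
      exact n2 (by omega) (by omega)
    rcases Nat.even_or_odd (j - i) with h5 | h5
    · exact hmin (j - i + 1) hd h5.add_one c1
    · refine hmin (L - (j - i) + 1) (by omega) ?_ c2
      exact (Nat.Odd.sub_odd hodd h5).add_one
  · rcases he with he | ⟨h5, h6⟩
    · rw [he]
      exact f2 i (by omega)
    · have h7 := f2 j hj
      rw [h6, f3] at h7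
      rw [h5]
      exact h7.symm

/-- A set of clique number two which does not split has an odd closed walk. -/
theorem walk_of {G : SimpleGraph V} {S : Finset V} (h2 : om G S = 2) (hn : ¬ Splits G S) :
    ∃ L, Odd L ∧ ∃ f, Closed G S L f := by
  have hnc : ¬ (G.induce (S : Set V)).Colorable 2 := by
    rintro ⟨c⟩
    apply hn
    let d : V → Fin 2 := fun v => if h : v ∈ S then c ⟨v, h⟩ else 0
    have hd : ∀ u ∈ S, ∀ v ∈ S, G.Adj u v → d u ≠ d v := by
      intro u hu v hv huv
      have h5 : c ⟨u, hu⟩ ≠ c ⟨v, hv⟩ := c.valid (by exact huv)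
      have e1 : d u = c ⟨u, hu⟩ := dif_pos hu
      have e2 : d v = c ⟨v, hv⟩ := dif_pos hv
      rwa [e1, e2]
    have key : ∀ i : Fin 2, om G (S.filter fun v => d v = i) < om G S := by
      intro i
      rw [h2]
      refine om_lt fun K k1 k2 => ?_
      by_contra hcard
      obtain ⟨a, ha, b, hb, hab⟩ := Finset.one_lt_card.1 (by omega : 1 < K.card)
      obtain ⟨a1, a2⟩ := Finset.mem_filter.1 (k1 ha)
      obtain ⟨b1, b2⟩ := Finset.mem_filter.1 (k1 hb)
      exact hd a a1 b b1 (k2 ha hb hab) (a2.trans b2.symm)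
    refine ⟨S.filter fun v => d v = 0, S.filter fun v => d v = 1, ?_, ?_, key 0, key 1⟩
    · ext v
      simp only [Finset.mem_union, Finset.mem_filter]
      constructor
      · rintro (h | h) <;> exact h.1
      · intro h
        have h5 : d v = 0 ∨ d v = 1 := by
          have : ∀ x : Fin 2, x = 0 ∨ x = 1 := by decide
          exact this _
        rcases h5 with h5 | h5
        · exact Or.inl ⟨h, h5⟩
        · exact Or.inr ⟨h, h5⟩
    · rw [Finset.disjoint_left]
      intro v hv hv'
      have e1 := (Finset.mem_filter.1 hv).2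
      have e2 := (Finset.mem_filter.1 hv').2
      rw [e1] at e2
      exact absurd e2 (by decide)
  rw [SimpleGraph.two_colorable_iff_forall_loop_even] at hnc
  push Not at hnc
  obtain ⟨u, w, hw⟩ := hnc
  rw [Nat.not_even_iff_odd] at hw
  refine ⟨w.length, hw, fun i => (w.getVert i : V), fun i => (w.getVert i).2, fun i hi => ?_, ?_⟩
  · exact w.adj_getVert_succ hi
  · show ((w.getVert w.length : _) : V) = (w.getVert 0 : V)
    rw [w.getVert_length, w.getVert_zero]

/-- An odd hole does not split. -/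
theorem no_hole {G : SimpleGraph V} (h : TwoDivisible G) (L : ℕ) (f : ℕ → V) :
    ¬ OddHole G L f := by
  rintro ⟨h5, hodd, hf⟩
  have hadj : ∀ i j, i < L → j < L → G.Adj (f i) (f j) →
      j = i + 1 ∨ i = j + 1 ∨ (i = 0 ∧ j + 1 = L) ∨ (j = 0 ∧ i + 1 = L) := by
    intro i j hi hj ha
    rcases lt_trichotomy i j with hij | hij | hij
    · rcases (hf i j hij hj).2.1 ha with h6 | h6
      · exact Or.inl h6
      · exact Or.inr (Or.inr (Or.inl h6))
    · rw [hij] at ha
      exact absurd ha (G.loopless.irrefl _)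
    · rcases (hf j i hij hi).2.1 ha.symm with h6 | h6
      · exact Or.inr (Or.inl h6)
      · exact Or.inr (Or.inr (Or.inr h6))
  have hnext : ∀ i, i + 1 < L → G.Adj (f i) (f (i + 1)) := fun i hi =>
    (hf i (i + 1) (Nat.lt_succ_self i) hi).2.2 (Or.inl rfl)
  have hlast : G.Adj (f 0) (f (L - 1)) :=
    (hf 0 (L - 1) (by omega) (by omega)).2.2 (Or.inr ⟨rfl, by omega⟩)
  let S : Finset V := (Finset.range L).image f
  have hmem : ∀ i, i < L → f i ∈ S := fun i hi =>
    Finset.mem_image.2 ⟨i, Finset.mem_range.2 hi, rfl⟩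
  have hom : om G S < 3 := by
    refine om_lt fun K k1 k2 => ?_
    by_contra hcard
    obtain ⟨a, ha, b, hb, c, hc, hab, hac, hbc⟩ := Finset.two_lt_card.1 (by omega : 2 < K.card)
    obtain ⟨i, hi, rfl⟩ := Finset.mem_image.1 (k1 ha)
    obtain ⟨j, hj, rfl⟩ := Finset.mem_image.1 (k1 hb)
    obtain ⟨k, hk, rfl⟩ := Finset.mem_image.1 (k1 hc)
    rw [Finset.mem_range] at hi hj hk
    have e1 := hadj i j hi hj (k2 ha hb hab)
    have e2 := hadj i k hi hk (k2 ha hc hac)
    have e3 := hadj j k hj hk (k2 hb hc hbc)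
    omega
  obtain ⟨A, B, h1, h2, h3, h4⟩ := h S ⟨f 0, hmem 0 (by omega), f 1, hmem 1 (by omega),
    hnext 0 (by omega)⟩
  have hno : ∀ C : Finset V, om G C < om G S → ∀ i j, G.Adj (f i) (f j) → f i ∈ C → f j ∉ C := by
    intro C hC i j ha hi hj
    have h6 : 2 ≤ om G C := two_le_om ⟨f i, hi, f j, hj, ha⟩
    omega
  have hside : ∀ i j, i < L → j < L → G.Adj (f i) (f j) → (f i ∈ A ↔ f j ∉ A) := by
    intro i j hi hj ha
    constructor
    · exact hno A h3 i j ha
    · intro hjA
      have hjB : f j ∈ B := (Finset.mem_union.1 (h1 ▸ hmem j hj)).resolve_left hjA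
      have hiB : f i ∉ B := fun h6 => hno B h4 i j ha h6 hjB
      exact (Finset.mem_union.1 (h1 ▸ hmem i hi)).resolve_right hiB
  have hpar : ∀ k, 2 * k < L → (f 0 ∈ A ↔ f (2 * k) ∈ A) := by
    intro k
    induction k with
    | zero => intro _; exact Iff.rfl
    | succ k ih =>
      intro hk
      have e1 := ih (by omega)
      have e2 := hside (2 * k) (2 * k + 1) (by omega) (by omega) (hnext _ (by omega))
      have e3 := hside (2 * k + 1) (2 * k + 1 + 1) (by omega) (by omega) (hnext _ (by omega))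
      rw [show 2 * (k + 1) = 2 * k + 1 + 1 by ring]
      tauto
  obtain ⟨k, hk⟩ := hodd
  have e1 := hpar k (by omega)
  have e2 := hside 0 (L - 1) (by omega) (by omega) hlast
  rw [show L - 1 = 2 * k by omega] at e2
  tauto

/-- A graph with at most `2 ω - 2` colours splits. -/
theorem splits_of_colorable {G : SimpleGraph V} {S : Finset V} (hk : 2 ≤ om G S)
    (hc : (G.induce (S : Set V)).Colorable (2 * om G S - 2)) : Splits G S := by
  obtain ⟨c⟩ := hc
  let d : V → ℕ := fun v => if h : v ∈ S then (c ⟨v, h⟩ : ℕ) else 0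
  have hlt : ∀ v ∈ S, d v < 2 * om G S - 2 := by
    intro v hv
    have e1 : d v = (c ⟨v, hv⟩ : ℕ) := dif_pos hv
    rw [e1]
    exact (c ⟨v, hv⟩).2
  have hd : ∀ u ∈ S, ∀ v ∈ S, G.Adj u v → d u ≠ d v := by
    intro u hu v hv huv he
    have h5 : c ⟨u, hu⟩ ≠ c ⟨v, hv⟩ := c.valid (by exact huv)
    have e1 : d u = (c ⟨u, hu⟩ : ℕ) := dif_pos hu
    have e2 : d v = (c ⟨v, hv⟩ : ℕ) := dif_pos hv
    rw [e1, e2] at he
    exact h5 (Fin.ext he)
  have key : ∀ (C : Finset V) (T : Finset ℕ), C ⊆ S → (∀ v ∈ C, d v ∈ T) → T.card < om G S →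
      om G C < om G S := by
    intro C T hC hT hcard
    refine om_lt fun K k1 k2 => lt_of_le_of_lt ?_ hcard
    refine Finset.card_le_card_of_injOn d (fun v hv => hT v (k1 hv)) ?_
    intro u hu v hv he
    by_contra hne
    exact hd u (hC (k1 hu)) v (hC (k1 hv)) (k2 hu hv hne) he
  refine ⟨S.filter fun v => d v < om G S - 1, S.filter fun v => ¬ d v < om G S - 1,
    Finset.filter_union_filter_not_eq _ _, Finset.disjoint_filter_filter_not _ _ _,
    key _ (Finset.range (om G S - 1)) (Finset.filter_subset _ _)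
      (fun v hv => Finset.mem_range.2 (Finset.mem_filter.1 hv).2) ?_,
    key _ (Finset.Ico (om G S - 1) (2 * om G S - 2)) (Finset.filter_subset _ _)
      (fun v hv => ?_) ?_⟩
  · rw [Finset.card_range]; omega
  · obtain ⟨h1, h2⟩ := Finset.mem_filter.1 hv
    exact Finset.mem_Ico.2 ⟨not_lt.1 h2, hlt v h1⟩
  · rw [Nat.card_Ico]; omega

/-- Two maximum cliques with at least three vertices which meet only in `v` contain a bowtie. -/
theorem bowtie_of {G : SimpleGraph V} {S K L : Finset V} {v : V} (h3 : 3 ≤ om G S)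
    (hK : IsMaxClique G S K) (hL : IsMaxClique G S L) (hKL : K ∩ L = {v}) : BowtieAt G S v := by
  obtain ⟨k1, k2, k3⟩ := hK
  obtain ⟨l1, l2, l3⟩ := hL
  have hvK : v ∈ K := (Finset.mem_inter.1 (hKL ▸ Finset.mem_singleton_self v)).1
  have hvL : v ∈ L := (Finset.mem_inter.1 (hKL ▸ Finset.mem_singleton_self v)).2
  have hone : ∀ x, x ∈ K → x ∈ L → x = v := fun x hx hx' => by
    have : x ∈ K ∩ L := Finset.mem_inter.2 ⟨hx, hx'⟩
    rw [hKL] at this
    exact Finset.mem_singleton.1 this
  have c1 : 1 < (K.erase v).card := by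
    rw [Finset.card_erase_of_mem hvK]; omega
  have c2 : 1 < (L.erase v).card := by
    rw [Finset.card_erase_of_mem hvL]; omega
  obtain ⟨a, ha, b, hb, hab⟩ := Finset.one_lt_card.1 c1
  obtain ⟨c, hc, d, hd, hcd⟩ := Finset.one_lt_card.1 c2
  rw [Finset.mem_erase] at ha hb hc hd
  have hne : ∀ x y, x ≠ v → x ∈ K → y ∈ L → x ≠ y := fun x y hxv hx hy hxy =>
    hxv (hone x hx (hxy ▸ hy))
  exact ⟨a, k1 ha.2, b, k1 hb.2, c, l1 hc.2, d, l1 hd.2, k2 hvK ha.2 ha.1.symm,
    k2 hvK hb.2 hb.1.symm, k2 ha.2 hb.2 hab, l2 hvL hc.2 hc.1.symm, l2 hvL hd.2 hd.1.symm,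
    l2 hc.2 hd.2 hcd, hne a c ha.1 ha.2 hc.2, hne a d ha.1 ha.2 hd.2, hne b c hb.1 hb.2 hc.2,
    hne b d hb.1 hb.2 hd.2⟩

theorem reduction (G : SimpleGraph V) :
    TwoDivisible G ↔ (¬ ∃ L f, OddHole G L f) ∧
      ∀ S : Finset V, 3 ≤ om G S → ¬ (G.induce (S : Set V)).Colorable (2 * om G S - 2) →
        (∀ v ∈ S, ∃ K L : Finset V, IsMaxClique G S K ∧ IsMaxClique G S L ∧ K ∩ L = {v}) →
          Splits G S := by
  constructor
  · intro h
    refine ⟨?_, fun S h3 _ _ => ?_⟩
    · rintro ⟨L, f, hf⟩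
      exact no_hole h L f hf
    · apply h
      by_contra he
      obtain ⟨K, k1, k2, k3⟩ := exists_om G S
      have := card_le_one he k1 k2
      omega
  · rintro ⟨hh, hs⟩ S
    induction S using Finset.strongInduction with
    | H S ih =>
      intro hS
      by_contra hn
      have hk := two_le_om hS
      rcases hk.eq_or_lt with h2 | h3
      · exact hh (hole_of h2.ge (walk_of h2.symm hn))
      · exact hn (hs S h3 (fun hc => hn (splits_of_colorable hk hc))
          (fun v hv => inter_of hk ih hn v hv))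

/-- **2-divisible graphs, odd holes and bowties.** -/
theorem result {V : Type} (G : SimpleGraph V) :
    (TwoDivisible G ↔ (¬ ∃ L f, OddHole G L f) ∧
      ∀ S : Finset V, 3 ≤ om G S → ¬ (G.induce (S : Set V)).Colorable (2 * om G S - 2) →
        (∀ v ∈ S, ∃ K L : Finset V, IsMaxClique G S K ∧ IsMaxClique G S L ∧ K ∩ L = {v}) →
          Splits G S) ∧
    ((∀ S : Finset V, 3 ≤ om G S →
        (G.induce (S : Set V)).Colorable 4 ∨ ∃ v ∈ S, ¬ BowtieAt G S v) →
      (TwoDivisible G ↔ ¬ ∃ L f, OddHole G L f)) := by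
  refine ⟨reduction G, fun h => ?_⟩
  rw [reduction G]
  refine ⟨fun h1 => h1.1, fun h1 => ⟨h1, fun S h3 hc hv => ?_⟩⟩
  rcases h S h3 with h4 | ⟨v, hvS, hb⟩
  · exact absurd (h4.mono (by omega)) hc
  · obtain ⟨K, L, hK, hL, hKL⟩ := hv v hvS
    exact absurd (bowtie_of h3 hK hL hKL) hb

end Pool.Agent.Results.MP_e14f41_lc.BowtieFree
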