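import Mathlib

/-!
# The minimal graphs which are not 2-divisible

Induced subgraphs are given by their (finite) vertex sets `S`.  `G` is 2-divisible if and only if
every tight induced subgraph with an edge has a partition into two parts of smaller clique number;
the fields of the structure `Tight` are properties of all minimal graphs which are not 2-divisible.
-/

set_option autoImplicit false

open scoped Classical

namespace Pool.Agent.Results.MP_e14f41_lc.MinimalObstructions

variable {V : Type}

/-- The clique number of the subgraph induced on `S`. -/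
noncomputable def om (G : SimpleGraph V) (S : Finset V) : ℕ :=
  (S.powerset.filter fun K : Finset V => G.IsClique (K : Set V)).sup Finset.card

/-- The subgraph induced on `S` has an edge. -/
def HasEdge (G : SimpleGraph V) (S : Finset V) : Prop := ∃ u ∈ S, ∃ v ∈ S, G.Adj u v

/-- `S` has a partition into two sets (one may be empty) whose clique numbers are smaller than the
clique number of `S`. -/
def Splits (G : SimpleGraph V) (S : Finset V) : Prop :=
  ∃ A B : Finset V, A ∪ B = S ∧ Disjoint A B ∧ om G A < om G S ∧ om G B < om G S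

/-- `G` is 2-divisible: every (finite) induced subgraph with an edge splits. -/
def TwoDivisible (G : SimpleGraph V) : Prop := ∀ S : Finset V, HasEdge G S → Splits G S

/-- `K` is a maximum clique of the subgraph induced on `S`. -/
def IsMaxClique (G : SimpleGraph V) (S K : Finset V) : Prop :=
  K ⊆ S ∧ G.IsClique (K : Set V) ∧ K.card = om G S

/-- The subgraph induced on `S` is tight:
* `prime`: it has no homogeneous set (module) `M` with at least two vertices except `S` itself;
* `block`: it has no cut vertex;
* `dom`: no vertex is dominated, there are no `u ≠ v` such that every neighbour of `u` is `v` or a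
  neighbour of `v`;
* `inter`: every vertex is the whole intersection of two maximum cliques;
* `anti`: every vertex is adjacent to no vertex of some maximum clique which does not contain it;
* `span`: the incidence vectors of the maximum cliques span `ℝ ^ S`;
* `many`: there are at least `2 ^ (k - 1)` maximum cliques, where `k` is the clique number;
* `count`: there are at least as many maximum cliques as vertices. -/
structure Tight (G : SimpleGraph V) (S : Finset V) : Prop where
  prime : ∀ M : Finset V, M ⊆ S → M ≠ S →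
    (∀ x ∈ S, x ∉ M → (∀ m ∈ M, G.Adj x m) ∨ (∀ m ∈ M, ¬ G.Adj x m)) → M.card ≤ 1
  block : ∀ c ∈ S, ∀ X Y : Finset V, X ∪ Y = S.erase c → Disjoint X Y → X.Nonempty →
    Y.Nonempty → ∃ x ∈ X, ∃ y ∈ Y, G.Adj x y
  dom : ∀ u ∈ S, ∀ v ∈ S, u ≠ v → ∃ x ∈ S, x ≠ v ∧ G.Adj u x ∧ ¬ G.Adj v x
  inter : ∀ v ∈ S, ∃ K L : Finset V, IsMaxClique G S K ∧ IsMaxClique G S L ∧ K ∩ L = {v}
  anti : ∀ v ∈ S, ∃ K : Finset V, IsMaxClique G S K ∧ v ∉ K ∧ ∀ x ∈ K, ¬ G.Adj v x
  span : ∀ x : V → ℝ, (∀ K : Finset V, IsMaxClique G S K → ∑ v ∈ K, x v = 0) →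
    ∀ v ∈ S, x v = 0
  many : 2 ^ (om G S - 1) ≤ (S.powerset.filter fun K => IsMaxClique G S K).card
  count : S.card ≤ (S.powerset.filter fun K => IsMaxClique G S K).card

theorem le_om {G : SimpleGraph V} {S K : Finset V} (h : K ⊆ S) (hK : G.IsClique (K : Set V)) :
    K.card ≤ om G S :=
  Finset.le_sup (f := Finset.card) (Finset.mem_filter.2 ⟨Finset.mem_powerset.2 h, hK⟩)

theorem exists_om (G : SimpleGraph V) (S : Finset V) :
    ∃ K : Finset V, K ⊆ S ∧ G.IsClique (K : Set V) ∧ K.card = om G S := by
  have hne : (S.powerset.filter fun K : Finset V => G.IsClique (K : Set V)).Nonempty :=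
    ⟨∅, Finset.mem_filter.2 ⟨Finset.empty_mem_powerset S, by simp⟩⟩
  obtain ⟨K, hK, h⟩ := Finset.exists_mem_eq_sup _ hne Finset.card
  rw [Finset.mem_filter, Finset.mem_powerset] at hK
  exact ⟨K, hK.1, hK.2, h.symm⟩

theorem om_mono {G : SimpleGraph V} {S T : Finset V} (h : S ⊆ T) : om G S ≤ om G T := by
  obtain ⟨K, h1, h2, h3⟩ := exists_om G S
  rw [← h3]
  exact le_om (h1.trans h) h2

theorem om_lt {G : SimpleGraph V} {A : Finset V} {k : ℕ}
    (h : ∀ K : Finset V, K ⊆ A → G.IsClique (K : Set V) → K.card < k) : om G A < k := by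
  obtain ⟨K, h1, h2, h3⟩ := exists_om G A
  rw [← h3]
  exact h K h1 h2

theorem two_le_om {G : SimpleGraph V} {S : Finset V} (h : HasEdge G S) : 2 ≤ om G S := by
  obtain ⟨u, hu, v, hv, huv⟩ := h
  have h1 : ({u, v} : Finset V).card = 2 := Finset.card_pair huv.ne
  rw [← h1]
  refine le_om ?_ ?_
  · intro x hx
    rw [Finset.mem_insert, Finset.mem_singleton] at hx
    rcases hx with rfl | rfl
    · exact hu
    · exact hv
  · rw [Finset.coe_pair, SimpleGraph.isClique_pair]
    exact fun _ => huv

theorem card_le_one {G : SimpleGraph V} {M K : Finset V} (h : ¬ HasEdge G M) (hK : K ⊆ M)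
    (hc : G.IsClique (K : Set V)) : K.card ≤ 1 := by
  by_contra hcon
  push Not at hcon
  obtain ⟨a, ha, b, hb, hab⟩ := Finset.one_lt_card.1 hcon
  exact h ⟨a, hK ha, b, hK hb, hc ha hb hab⟩

/-- A proper subset of a minimal set which does not split has a partition into two parts without
cliques of size `k`. -/
theorem weak {G : SimpleGraph V} {S : Finset V} (hk : 2 ≤ om G S)
    (ih : ∀ T : Finset V, T ⊂ S → HasEdge G T → Splits G T) {T : Finset V} (hT : T ⊂ S) :
    ∃ A B : Finset V, A ∪ B = T ∧ Disjoint A B ∧ om G A < om G S ∧ om G B < om G S := by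
  by_cases he : HasEdge G T
  · obtain ⟨A, B, h1, h2, h3, h4⟩ := ih T hT he
    have h5 := om_mono (G := G) hT.subset
    exact ⟨A, B, h1, h2, h3.trans_le h5, h4.trans_le h5⟩
  · refine ⟨T, ∅, Finset.union_empty T, Finset.disjoint_empty_right T, ?_, ?_⟩
    · exact om_lt fun K h1 h2 => lt_of_le_of_lt (card_le_one he h1 h2) (by omega)
    · refine om_lt fun K h1 h2 => ?_
      rw [Finset.subset_empty.1 h1, Finset.card_empty]
      omega

theorem splits_symm {G : SimpleGraph V} {S A B : Finset V} (h1 : A ∪ B = S)
    (h2 : Disjoint A B) (h3 : om G A < om G S) (h4 : om G B < om G S) : Splits G S :=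
  ⟨A, B, h1, h2, h3, h4⟩

theorem inter_of {G : SimpleGraph V} {S : Finset V} (hk : 2 ≤ om G S)
    (ih : ∀ T : Finset V, T ⊂ S → HasEdge G T → Splits G T) (hn : ¬ Splits G S) (v : V)
    (hv : v ∈ S) :
    ∃ K L : Finset V, IsMaxClique G S K ∧ IsMaxClique G S L ∧ K ∩ L = {v} := by
  obtain ⟨A, B, h1, h2, h3, h4⟩ := weak hk ih (Finset.erase_ssubset hv)
  have hvA : v ∉ A := fun h => (Finset.mem_erase.1 (h1 ▸ Finset.mem_union_left B h)).1 rfl
  have hvB : v ∉ B := fun h => (Finset.mem_erase.1 (h1 ▸ Finset.mem_union_right A h)).1 rfl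
  have hA : A ⊆ S := (Finset.subset_union_left.trans h1.subset).trans (Finset.erase_subset v S)
  have hB : B ⊆ S := (Finset.subset_union_right.trans h1.subset).trans (Finset.erase_subset v S)
  have key : ∀ C D : Finset V, C ∪ D = S.erase v → Disjoint C D → C ⊆ S → v ∉ C → v ∉ D →
      om G C < om G S → om G D < om G S →
      ∃ K : Finset V, K ⊆ insert v C ∧ G.IsClique (K : Set V) ∧ K.card = om G S ∧ v ∈ K := by
    intro C D c1 c2 c3 c4 c5 c6 c7
    obtain ⟨K, k1, k2, k3⟩ := exists_om G (insert v C)
    have hle : om G (insert v C) ≤ om G S := om_mono (Finset.insert_subset hv c3)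
    have hge : om G S ≤ om G (insert v C) := by
      by_contra hcon
      push Not at hcon
      refine hn ⟨insert v C, D, ?_, ?_, hcon, c7⟩
      · rw [Finset.insert_union, c1, Finset.insert_erase hv]
      · rw [Finset.disjoint_insert_left]
        exact ⟨c5, c2⟩
    refine ⟨K, k1, k2, k3.trans (le_antisymm hle hge), ?_⟩
    by_contra hvK
    have h5 : K ⊆ C := fun x hx => by
      rcases Finset.mem_insert.1 (k1 hx) with h | h
      · exact absurd (h ▸ hx) hvK
      · exact h
    have h6 := le_om h5 k2
    omega
  obtain ⟨K, k1, k2, k3, k4⟩ := key A B h1 h2 hA hvA hvB h3 h4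
  obtain ⟨L, l1, l2, l3, l4⟩ :=
    key B A (by rw [Finset.union_comm]; exact h1) h2.symm hB hvB hvA h4 h3
  refine ⟨K, L, ⟨k1.trans (Finset.insert_subset hv hA), k2, k3⟩,
    ⟨l1.trans (Finset.insert_subset hv hB), l2, l3⟩, ?_⟩
  ext x
  rw [Finset.mem_inter, Finset.mem_singleton]
  constructor
  · rintro ⟨hx, hx'⟩
    rcases Finset.mem_insert.1 (k1 hx) with h | h
    · exact h
    · rcases Finset.mem_insert.1 (l1 hx') with h' | h'
      · exact h'
      · exact absurd h' (Finset.disjoint_left.1 h2 h)
  · rintro rfl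
    exact ⟨k4, l4⟩

theorem anti_of {G : SimpleGraph V} {S : Finset V} (hk : 2 ≤ om G S) (hn : ¬ Splits G S) (v : V)
    (hv : v ∈ S) : ∃ K : Finset V, IsMaxClique G S K ∧ v ∉ K ∧ ∀ x ∈ K, ¬ G.Adj v x := by
  have hB : S.filter (fun x => ¬ G.Adj v x) ⊆ S := Finset.filter_subset _ _
  have hge : om G S ≤ om G (S.filter fun x => ¬ G.Adj v x) := by
    by_contra hcon
    push Not at hcon
    refine hn ⟨S.filter (G.Adj v), S.filter (fun x => ¬ G.Adj v x),
      Finset.filter_union_filter_not_eq _ _, Finset.disjoint_filter_filter_not _ _ _, ?_, hcon⟩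
    refine om_lt fun K h1 h2 => ?_
    have hvK : v ∉ K := fun h => G.loopless.irrefl v (Finset.mem_filter.1 (h1 h)).2
    have h3 : (insert v K).card ≤ om G S := by
      refine le_om (Finset.insert_subset hv (h1.trans (Finset.filter_subset _ _))) ?_
      rw [Finset.coe_insert, SimpleGraph.isClique_insert]
      exact ⟨h2, fun b hb _ => (Finset.mem_filter.1 (h1 hb)).2⟩
    rw [Finset.card_insert_of_notMem hvK] at h3
    omega
  obtain ⟨K, k1, k2, k3⟩ := exists_om G (S.filter fun x => ¬ G.Adj v x)
  have hcard : K.card = om G S := le_antisymm (le_om (k1.trans hB) k2) (k3 ▸ hge)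
  refine ⟨K, ⟨k1.trans hB, k2, hcard⟩, ?_, fun x hx => (Finset.mem_filter.1 (k1 hx)).2⟩
  intro hvK
  have h2 : 1 < K.card := by omega
  obtain ⟨x, hx, hxv⟩ := Finset.exists_mem_ne h2 v
  exact (Finset.mem_filter.1 (k1 hx)).2 (k2 hvK hx hxv.symm)

theorem prime_of {G : SimpleGraph V} {S : Finset V} (hk : 2 ≤ om G S)
    (ih : ∀ T : Finset V, T ⊂ S → HasEdge G T → Splits G T) (hn : ¬ Splits G S) (M : Finset V)
    (hM : M ⊆ S) (hMS : M ≠ S)
    (hom : ∀ x ∈ S, x ∉ M → (∀ m ∈ M, G.Adj x m) ∨ (∀ m ∈ M, ¬ G.Adj x m)) : M.card ≤ 1 := by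
  by_contra hcon
  push Not at hcon
  have hMss : M ⊂ S := Finset.ssubset_iff_subset_ne.2 ⟨hM, hMS⟩
  by_cases he : HasEdge G M
  · obtain ⟨A2, B2, a1, a2, a3, a4⟩ := ih M hMss he
    have hss : S \ M ⊂ S := by
      refine Finset.sdiff_ssubset hM (Finset.card_pos.1 (by omega))
    obtain ⟨A1, B1, b1, b2, b3, b4⟩ := weak hk ih hss
    have hA1 : A1 ⊆ S \ M := Finset.subset_union_left.trans b1.subset
    have hB1 : B1 ⊆ S \ M := Finset.subset_union_right.trans b1.subset
    have hA2 : A2 ⊆ M := Finset.subset_union_left.trans a1.subset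
    have hB2 : B2 ⊆ M := Finset.subset_union_right.trans a1.subset
    have key : ∀ C1 C2 : Finset V, C1 ⊆ S \ M → C2 ⊆ M → om G C1 < om G S → om G C2 < om G M →
        om G (C1 ∪ C2) < om G S := by
      intro C1 C2 c1 c2 c3 c4
      refine om_lt fun K k1 k2 => ?_
      by_cases hm : ∃ m ∈ K, m ∈ M
      · obtain ⟨m, hmK, hmM⟩ := hm
        obtain ⟨Q, q1, q2, q3⟩ := exists_om G M
        have hfull : ∀ x ∈ K \ M, ∀ y ∈ M, G.Adj x y := by
          intro x hx y hy
          rw [Finset.mem_sdiff] at hx
          have hxm : x ≠ m := fun h => hx.2 (h ▸ hmM)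
          have hxC : x ∈ C1 := by
            rcases Finset.mem_union.1 (k1 hx.1) with h | h
            · exact h
            · exact absurd (c2 h) hx.2
          rcases hom x (Finset.mem_sdiff.1 (c1 hxC)).1 hx.2 with h | h
          · exact h y hy
          · exact absurd (k2 hx.1 hmK hxm) (h m hmM)
        have hKS : K \ M ⊆ S := by
          intro x hx
          rw [Finset.mem_sdiff] at hx
          rcases Finset.mem_union.1 (k1 hx.1) with h | h
          · exact (Finset.mem_sdiff.1 (c1 h)).1
          · exact hM (c2 h)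
        have hcl : G.IsClique (((K \ M) ∪ Q : Finset V) : Set V) := by
          intro x hx y hy hxy
          rw [Finset.mem_coe, Finset.mem_union] at hx hy
          rcases hx with hx | hx <;> rcases hy with hy | hy
          · exact k2 (Finset.mem_sdiff.1 hx).1 (Finset.mem_sdiff.1 hy).1 hxy
          · exact hfull x hx y (q1 hy)
          · exact (hfull y hy x (q1 hx)).symm
          · exact q2 hx hy hxy
        have hdis : Disjoint (K \ M) Q :=
          Finset.disjoint_left.2 fun x hx hx' => (Finset.mem_sdiff.1 hx).2 (q1 hx')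
        have h5 := le_om (Finset.union_subset hKS (q1.trans hM)) hcl
        rw [Finset.card_union_of_disjoint hdis] at h5
        have h6 : (K \ M).card + (K ∩ M).card = K.card := Finset.card_sdiff_add_card_inter K M
        have h7 : (K ∩ M).card ≤ om G C2 := by
          refine le_om ?_ (k2.subset (by
            rw [Finset.coe_inter]
            exact Set.inter_subset_left))
          intro x hx
          rw [Finset.mem_inter] at hx
          rcases Finset.mem_union.1 (k1 hx.1) with h | h
          · exact absurd hx.2 (Finset.mem_sdiff.1 (c1 h)).2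
          · exact h
        omega
      · push Not at hm
        have h5 : K ⊆ C1 := fun x hx => by
          rcases Finset.mem_union.1 (k1 hx) with h | h
          · exact h
          · exact absurd (c2 h) (hm x hx)
        exact (le_om h5 k2).trans_lt c3
    refine hn ⟨A1 ∪ A2, B1 ∪ B2, ?_, ?_, key A1 A2 hA1 hA2 b3 a3, key B1 B2 hB1 hB2 b4 a4⟩
    · rw [Finset.union_union_union_comm, b1, a1, Finset.sdiff_union_of_subset hM]
    · rw [Finset.disjoint_left]
      intro x hx hx'
      rcases Finset.mem_union.1 hx with h | h <;> rcases Finset.mem_union.1 hx' with h' | h'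
      · exact Finset.disjoint_left.1 b2 h h'
      · exact (Finset.mem_sdiff.1 (hA1 h)).2 (hB2 h')
      · exact (Finset.mem_sdiff.1 (hB1 h')).2 (hA2 h)
      · exact Finset.disjoint_left.1 a2 h h'
  · obtain ⟨m, hm⟩ : M.Nonempty := Finset.card_pos.1 (by omega)
    have hM' : (M.erase m).Nonempty := by
      rw [← Finset.card_pos, Finset.card_erase_of_mem hm]
      omega
    have hsub : M.erase m ⊆ S := (Finset.erase_subset m M).trans hM
    have hss : S \ M.erase m ⊂ S := Finset.sdiff_ssubset hsub hM'
    obtain ⟨A, B, h1, h2, h3, h4⟩ := weak hk ih hss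
    have hmS : m ∈ S \ M.erase m :=
      Finset.mem_sdiff.2 ⟨hM hm, Finset.notMem_erase m M⟩
    have key : ∀ C D : Finset V, C ∪ D = S \ M.erase m → Disjoint C D → om G C < om G S →
        om G D < om G S → m ∈ C → Splits G S := by
      intro C D c1 c2 c3 c4 c5
      have hC : C ⊆ S \ M.erase m := Finset.subset_union_left.trans c1.subset
      have hD : D ⊆ S \ M.erase m := Finset.subset_union_right.trans c1.subset
      refine ⟨C ∪ M.erase m, D, ?_, ?_, ?_, c4⟩
      · rw [Finset.union_right_comm, c1, Finset.sdiff_union_of_subset hsub]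
      · rw [Finset.disjoint_left]
        intro x hx hx'
        rcases Finset.mem_union.1 hx with h | h
        · exact Finset.disjoint_left.1 c2 h hx'
        · exact (Finset.mem_sdiff.1 (hD hx')).2 h
      · refine om_lt fun K k1 k2 => ?_
        by_cases hex : ∃ m' ∈ K, m' ∈ M.erase m
        · obtain ⟨m', hm'K, hm'⟩ := hex
          have hm'M : m' ∈ M := Finset.mem_of_mem_erase hm'
          have hne : ∀ x ∈ K, x ≠ m' → x ∉ M := fun x hx hxm hxM =>
            he ⟨x, hxM, m', hm'M, k2 hx hm'K hxm⟩
          have hmK : m ∉ K := fun h => hne m h (Finset.ne_of_mem_erase hm').symm hm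
          have hCK : ∀ x ∈ K, x ≠ m' → x ∈ C := by
            intro x hx hxm
            rcases Finset.mem_union.1 (k1 hx) with h | h
            · exact h
            · exact absurd (Finset.mem_of_mem_erase h) (hne x hx hxm)
          have hadj : ∀ x ∈ K, x ≠ m' → G.Adj x m := by
            intro x hx hxm
            rcases hom x (Finset.mem_sdiff.1 (hC (hCK x hx hxm))).1 (hne x hx hxm) with h | h
            · exact h m hm
            · exact absurd (k2 hx hm'K hxm) (h m' hm'M)
          have h5 : (insert m (K.erase m')).card ≤ om G C := by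
            refine le_om ?_ ?_
            · refine Finset.insert_subset c5 fun x hx => ?_
              rw [Finset.mem_erase] at hx
              exact hCK x hx.2 hx.1
            · rw [Finset.coe_insert, SimpleGraph.isClique_insert]
              refine ⟨k2.subset (by
                rw [Finset.coe_erase]
                exact Set.sdiff_subset), fun b hb _ => ?_⟩
              rw [Finset.mem_coe, Finset.mem_erase] at hb
              exact (hadj b hb.2 hb.1).symm
          rw [Finset.card_insert_of_notMem (fun h => hmK (Finset.mem_of_mem_erase h)),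
            Finset.card_erase_of_mem hm'K] at h5
          have h6 : 0 < K.card := Finset.card_pos.2 ⟨m', hm'K⟩
          omega
        · push Not at hex
          have h5 : K ⊆ C := fun x hx => by
            rcases Finset.mem_union.1 (k1 hx) with h | h
            · exact h
            · exact absurd h (hex x hx)
          exact (le_om h5 k2).trans_lt c3
    rcases Finset.mem_union.1 (h1 ▸ hmS) with h | h
    · exact hn (key A B h1 h2 h3 h4 h)
    · exact hn (key B A (by rw [Finset.union_comm]; exact h1) h2.symm h4 h3 h)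

/-- Weak splits with the given vertex in the first part. -/
theorem weak_mem {G : SimpleGraph V} {S : Finset V} (hk : 2 ≤ om G S)
    (ih : ∀ T : Finset V, T ⊂ S → HasEdge G T → Splits G T) {T : Finset V} (hT : T ⊂ S) {c : V}
    (hc : c ∈ T) :
    ∃ A B : Finset V, A ∪ B = T ∧ Disjoint A B ∧ om G A < om G S ∧ om G B < om G S ∧ c ∈ A := by
  obtain ⟨A, B, h1, h2, h3, h4⟩ := weak hk ih hT
  rcases Finset.mem_union.1 (h1 ▸ hc : c ∈ A ∪ B) with h | h
  · exact ⟨A, B, h1, h2, h3, h4, h⟩
  · exact ⟨B, A, by rw [Finset.union_comm]; exact h1, h2.symm, h4, h3, h⟩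

theorem block_of {G : SimpleGraph V} {S : Finset V} (hk : 2 ≤ om G S)
    (ih : ∀ T : Finset V, T ⊂ S → HasEdge G T → Splits G T) (hn : ¬ Splits G S) (c : V)
    (hc : c ∈ S) (X Y : Finset V) (hXY : X ∪ Y = S.erase c) (hd : Disjoint X Y)
    (hX : X.Nonempty) (hY : Y.Nonempty) : ∃ x ∈ X, ∃ y ∈ Y, G.Adj x y := by
  by_contra hcon
  push Not at hcon
  have hcX : c ∉ X := fun h => (Finset.mem_erase.1 (hXY ▸ Finset.mem_union_left Y h)).1 rfl
  have hcY : c ∉ Y := fun h => (Finset.mem_erase.1 (hXY ▸ Finset.mem_union_right X h)).1 rfl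
  have hXS : X ⊆ S := (Finset.subset_union_left.trans hXY.subset).trans (Finset.erase_subset c S)
  have hYS : Y ⊆ S := (Finset.subset_union_right.trans hXY.subset).trans (Finset.erase_subset c S)
  have s1 : insert c X ⊂ S := by
    refine Finset.ssubset_iff_subset_ne.2 ⟨Finset.insert_subset hc hXS, ?_⟩
    rintro h
    obtain ⟨y, hy⟩ := hY
    rcases Finset.mem_insert.1 (h ▸ hYS hy) with h' | h'
    · exact hcY (h' ▸ hy)
    · exact Finset.disjoint_left.1 hd h' hy
  have s2 : insert c Y ⊂ S := by
    refine Finset.ssubset_iff_subset_ne.2 ⟨Finset.insert_subset hc hYS, ?_⟩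
    rintro h
    obtain ⟨x, hx⟩ := hX
    rcases Finset.mem_insert.1 (h ▸ hXS hx) with h' | h'
    · exact hcX (h' ▸ hx)
    · exact Finset.disjoint_left.1 hd hx h'
  obtain ⟨A1, B1, a1, a2, a3, a4, a5⟩ := weak_mem hk ih s1 (Finset.mem_insert_self c X)
  obtain ⟨A2, B2, b1, b2, b3, b4, b5⟩ := weak_mem hk ih s2 (Finset.mem_insert_self c Y)
  have hA1 : A1 ⊆ insert c X := Finset.subset_union_left.trans a1.subset
  have hB1 : B1 ⊆ insert c X := Finset.subset_union_right.trans a1.subset
  have hA2 : A2 ⊆ insert c Y := Finset.subset_union_left.trans b1.subset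
  have hB2 : B2 ⊆ insert c Y := Finset.subset_union_right.trans b1.subset
  have hboth : ∀ x, x ∈ insert c X → x ∈ insert c Y → x = c := by
    intro x h h'
    rcases Finset.mem_insert.1 h with h | h
    · exact h
    · rcases Finset.mem_insert.1 h' with h' | h'
      · exact h'
      · exact absurd h' (Finset.disjoint_left.1 hd h)
  have key : ∀ C1 C2 : Finset V, C1 ⊆ insert c X → C2 ⊆ insert c Y →
      (c ∈ C1 ↔ c ∈ C2) → om G C1 < om G S → om G C2 < om G S → om G (C1 ∪ C2) < om G S := by
    intro C1 C2 c1 c2 c3 c4 c5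
    refine om_lt fun K k1 k2 => ?_
    by_cases hx : ∃ x ∈ K, x ∈ X
    · obtain ⟨x, hxK, hxX⟩ := hx
      have h5 : K ⊆ C1 := by
        intro y hy
        rcases Finset.mem_union.1 (k1 hy) with h | h
        · exact h
        · rcases Finset.mem_insert.1 (c2 h) with h' | h'
          · rw [h']
            exact c3.2 (h' ▸ h)
          · refine absurd (k2 hxK hy ?_) (hcon x hxX y h')
            rintro rfl
            exact Finset.disjoint_left.1 hd hxX h'
      exact (le_om h5 k2).trans_lt c4
    · push Not at hx
      have h5 : K ⊆ C2 := by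
        intro y hy
        rcases Finset.mem_union.1 (k1 hy) with h | h
        · rcases Finset.mem_insert.1 (c1 h) with h' | h'
          · rw [h']
            exact c3.1 (h' ▸ h)
          · exact absurd h' (hx y hy)
        · exact h
      exact (le_om h5 k2).trans_lt c5
  have hcB1 : c ∉ B1 := Finset.disjoint_left.1 a2 a5
  have hcB2 : c ∉ B2 := Finset.disjoint_left.1 b2 b5
  refine hn ⟨A1 ∪ A2, B1 ∪ B2, ?_, ?_, key A1 A2 hA1 hA2 ⟨fun _ => b5, fun _ => a5⟩ a3 b3,
    key B1 B2 hB1 hB2 ⟨fun h => absurd h hcB1, fun h => absurd h hcB2⟩ a4 b4⟩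
  · rw [Finset.union_union_union_comm, a1, b1]
    ext x
    rw [Finset.mem_union, Finset.mem_insert, Finset.mem_insert]
    constructor
    · rintro ((h | h) | (h | h))
      · exact h ▸ hc
      · exact hXS h
      · exact h ▸ hc
      · exact hYS h
    · intro h
      by_cases hxc : x = c
      · exact Or.inl (Or.inl hxc)
      · have h' : x ∈ X ∪ Y := by
          rw [hXY]
          exact Finset.mem_erase.2 ⟨hxc, h⟩
        rcases Finset.mem_union.1 h' with h' | h'
        · exact Or.inl (Or.inr h')
        · exact Or.inr (Or.inr h')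
  · rw [Finset.disjoint_left]
    intro x hx hx'
    rcases Finset.mem_union.1 hx with h | h <;> rcases Finset.mem_union.1 hx' with h' | h'
    · exact Finset.disjoint_left.1 a2 h h'
    · have := hboth x (hA1 h) (hB2 h')
      exact hcB2 (this ▸ h')
    · have := hboth x (hB1 h') (hA2 h)
      exact hcB1 (this ▸ h')
    · exact Finset.disjoint_left.1 b2 h h'

theorem many_of {G : SimpleGraph V} {S : Finset V} (hk : 2 ≤ om G S) (hn : ¬ Splits G S) :
    2 ^ (om G S - 1) ≤ (S.powerset.filter fun K => IsMaxClique G S K).card := by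
  by_contra hcon
  push Not at hcon
  apply hn
  let C := S.powerset.filter fun K => IsMaxClique G S K
  let bad := C.biUnion fun K => Finset.Icc K S ∪ (S \ K).powerset
  obtain ⟨K0, k1, k2, k3⟩ := exists_om G S
  have hkn : om G S ≤ S.card := k3 ▸ Finset.card_le_card k1
  have hbad : bad.card ≤ C.card * (2 * 2 ^ (S.card - om G S)) := by
    refine Finset.card_biUnion_le_card_mul _ _ _ fun K hK => ?_
    have hK' : IsMaxClique G S K := (Finset.mem_filter.1 hK).2
    refine (Finset.card_union_le _ _).trans ?_
    rw [Finset.card_Icc_finset hK'.1, Finset.card_powerset, Finset.card_sdiff_of_subset hK'.1,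
      hK'.2.2]
    omega
  have hlt : bad.card < (S.powerset).card := by
    refine hbad.trans_lt ?_
    rw [Finset.card_powerset]
    have h1 : C.card * (2 * 2 ^ (S.card - om G S)) <
        2 ^ (om G S - 1) * (2 * 2 ^ (S.card - om G S)) :=
      Nat.mul_lt_mul_of_pos_right hcon (by positivity)
    refine h1.trans_eq ?_
    rw [← pow_succ', ← pow_add]
    congr 1
    omega
  obtain ⟨A, hA, hAb⟩ := Finset.exists_mem_notMem_of_card_lt_card hlt
  have hAS : A ⊆ S := Finset.mem_powerset.1 hA
  have hno : ∀ K, IsMaxClique G S K → ¬ K ⊆ A ∧ ¬ K ⊆ S \ A := by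
    intro K hK
    have hKC : K ∈ C := Finset.mem_filter.2 ⟨Finset.mem_powerset.2 hK.1, hK⟩
    constructor
    · intro h
      exact hAb (Finset.mem_biUnion.2 ⟨K, hKC, Finset.mem_union_left _
        (Finset.mem_Icc.2 ⟨h, hAS⟩)⟩)
    · intro h
      refine hAb (Finset.mem_biUnion.2 ⟨K, hKC, Finset.mem_union_right _
        (Finset.mem_powerset.2 fun x hx => Finset.mem_sdiff.2 ⟨hAS hx, fun hxK => ?_⟩)⟩)
      exact (Finset.mem_sdiff.1 (h hxK)).2 hx
  have key : ∀ D : Finset V, D ⊆ S → (∀ K, IsMaxClique G S K → ¬ K ⊆ D) → om G D < om G S := by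
    intro D hD h
    refine lt_of_le_of_ne (om_mono hD) fun he => ?_
    obtain ⟨K, c1, c2, c3⟩ := exists_om G D
    exact h K ⟨c1.trans hD, c2, c3.trans he⟩ c1
  exact ⟨A, S \ A, Finset.union_sdiff_of_subset hAS, Finset.disjoint_sdiff,
    key A hAS fun K hK => (hno K hK).1, key (S \ A) Finset.sdiff_subset fun K hK => (hno K hK).2⟩

theorem dom_of {G : SimpleGraph V} {S : Finset V} (hk : 2 ≤ om G S)
    (ih : ∀ T : Finset V, T ⊂ S → HasEdge G T → Splits G T) (hn : ¬ Splits G S) (u : V)
    (hu : u ∈ S) (v : V) (hv : v ∈ S) (huv : u ≠ v) :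
    ∃ x ∈ S, x ≠ v ∧ G.Adj u x ∧ ¬ G.Adj v x := by
  by_contra hcon
  push Not at hcon
  obtain ⟨A, B, h1, h2, h3, h4, hvA⟩ := weak_mem hk ih (Finset.erase_ssubset hu)
    (Finset.mem_erase.2 ⟨huv.symm, hv⟩)
  have huA : u ∉ A := fun h => (Finset.mem_erase.1 (h1 ▸ Finset.mem_union_left B h)).1 rfl
  have huB : u ∉ B := fun h => (Finset.mem_erase.1 (h1 ▸ Finset.mem_union_right A h)).1 rfl
  have hA : A ⊆ S := (Finset.subset_union_left.trans h1.subset).trans (Finset.erase_subset u S)
  have hB : B ⊆ S := (Finset.subset_union_right.trans h1.subset).trans (Finset.erase_subset u S)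
  by_cases hadj : G.Adj u v
  · refine hn ⟨A, insert u B, ?_, ?_, h3, ?_⟩
    · rw [Finset.union_insert, h1, Finset.insert_erase hu]
    · rw [Finset.disjoint_insert_right]
      exact ⟨huA, h2⟩
    · refine om_lt fun K k1 k2 => ?_
      by_cases huK : u ∈ K
      · have hvK : v ∉ K := by
          intro h
          rcases Finset.mem_insert.1 (k1 h) with h' | h'
          · exact huv h'.symm
          · exact Finset.disjoint_left.1 h2 hvA h'
        have h5 : (insert v K).card ≤ om G S := by
          refine le_om (Finset.insert_subset hv (k1.trans (Finset.insert_subset hu hB))) ?_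
          rw [Finset.coe_insert, SimpleGraph.isClique_insert]
          refine ⟨k2, fun b hb hvb => ?_⟩
          rcases Finset.mem_insert.1 (k1 hb) with h | h
          · rw [h]
            exact hadj.symm
          · exact hcon b (hB h) hvb.symm (k2 huK hb (fun h' => huB (h' ▸ h)))
        rw [Finset.card_insert_of_notMem hvK] at h5
        omega
      · have h5 : K ⊆ B := fun x hx => by
          rcases Finset.mem_insert.1 (k1 hx) with h | h
          · exact absurd (h ▸ hx) huK
          · exact h
        exact (le_om h5 k2).trans_lt h4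
  · refine hn ⟨insert u A, B, ?_, ?_, ?_, h4⟩
    · rw [Finset.insert_union, h1, Finset.insert_erase hu]
    · rw [Finset.disjoint_insert_left]
      exact ⟨huB, h2⟩
    · refine om_lt fun K k1 k2 => ?_
      by_cases huK : u ∈ K
      · have hvK : v ∉ K := fun h => hadj (k2 huK h huv)
        have hKA : ∀ x ∈ K, x ≠ u → x ∈ A := fun x hx hxu =>
          (Finset.mem_insert.1 (k1 hx)).resolve_left hxu
        have h5 : (insert v (K.erase u)).card ≤ om G A := by
          refine le_om ?_ ?_
          · refine Finset.insert_subset hvA fun x hx => ?_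
            rw [Finset.mem_erase] at hx
            exact hKA x hx.2 hx.1
          · rw [Finset.coe_insert, SimpleGraph.isClique_insert]
            refine ⟨k2.subset (by
              rw [Finset.coe_erase]
              exact Set.sdiff_subset), fun b hb hvb => ?_⟩
            rw [Finset.mem_coe, Finset.mem_erase] at hb
            exact hcon b (hA (hKA b hb.2 hb.1)) hvb.symm (k2 huK hb.2 hb.1.symm)
        rw [Finset.card_insert_of_notMem (fun h => hvK (Finset.mem_of_mem_erase h)),
          Finset.card_erase_of_mem huK] at h5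
        have h6 : 0 < K.card := Finset.card_pos.2 ⟨u, huK⟩
        omega
      · have h5 : K ⊆ A := fun x hx => by
          rcases Finset.mem_insert.1 (k1 hx) with h | h
          · exact absurd (h ▸ hx) huK
          · exact h
        exact (le_om h5 k2).trans_lt h3

theorem span_of {G : SimpleGraph V} {S : Finset V} (hk : 2 ≤ om G S)
    (ih : ∀ T : Finset V, T ⊂ S → HasEdge G T → Splits G T) (hn : ¬ Splits G S) (x : V → ℝ)
    (hx : ∀ K : Finset V, IsMaxClique G S K → ∑ v ∈ K, x v = 0) (v : V) (hv : v ∈ S) :
    x v = 0 := by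
  by_contra hne
  have hss : S.filter (fun u => x u = 0) ⊂ S :=
    Finset.filter_ssubset.2 ⟨v, hv, hne⟩
  obtain ⟨A, B, h1, h2, h3, h4⟩ := weak hk ih hss
  have hA : ∀ u ∈ A, u ∈ S ∧ x u = 0 := fun u hu =>
    Finset.mem_filter.1 (h1 ▸ Finset.mem_union_left B hu)
  have hB : ∀ u ∈ B, u ∈ S ∧ x u = 0 := fun u hu =>
    Finset.mem_filter.1 (h1 ▸ Finset.mem_union_right A hu)
  have key : ∀ (C : Finset V) (y : V → ℝ), (∀ u ∈ C, u ∈ S ∧ y u = 0) → om G C < om G S →
      (∀ K : Finset V, IsMaxClique G S K → ∑ v ∈ K, y v = 0) →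
      om G (C ∪ S.filter (fun u => 0 < y u)) < om G S := by
    intro C y hC hCo hy
    refine lt_of_le_of_ne (om_mono (Finset.union_subset (fun u hu => (hC u hu).1)
      (Finset.filter_subset _ _))) fun he => ?_
    obtain ⟨K, k1, k2, k3⟩ := exists_om G (C ∪ S.filter (fun u => 0 < y u))
    have hKS : K ⊆ S := fun u hu => by
      rcases Finset.mem_union.1 (k1 hu) with h | h
      · exact (hC u h).1
      · exact (Finset.mem_filter.1 h).1
    have hnn : ∀ u ∈ K, 0 ≤ y u := fun u hu => by
      rcases Finset.mem_union.1 (k1 hu) with h | h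
      · exact (hC u h).2.ge
      · exact (Finset.mem_filter.1 h).2.le
    have h0 := (Finset.sum_eq_zero_iff_of_nonneg hnn).1 (hy K ⟨hKS, k2, k3.trans he⟩)
    have hKC : K ⊆ C := fun u hu => by
      rcases Finset.mem_union.1 (k1 hu) with h | h
      · exact h
      · exact absurd (h0 u hu) (Finset.mem_filter.1 h).2.ne'
    have h5 := le_om hKC k2
    omega
  refine hn ⟨A ∪ S.filter (fun u => 0 < x u), B ∪ S.filter (fun u => 0 < -x u), ?_, ?_,
    key A x hA h3 hx, key B (fun u => -x u) (fun u hu => ⟨(hB u hu).1, by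
      rw [(hB u hu).2, neg_zero]⟩) h4 fun K hK => by
      rw [Finset.sum_neg_distrib, hx K hK, neg_zero]⟩
  · ext u
    simp only [Finset.mem_union, Finset.mem_filter]
    constructor
    · rintro ((h | h) | (h | h))
      · exact (hA u h).1
      · exact h.1
      · exact (hB u h).1
      · exact h.1
    · intro hu
      rcases lt_trichotomy (x u) 0 with h | h | h
      · exact Or.inr (Or.inr ⟨hu, by linarith⟩)
      · have h6 : u ∈ A ∪ B := by
          rw [h1]
          exact Finset.mem_filter.2 ⟨hu, h⟩
        rcases Finset.mem_union.1 h6 with h' | h'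
        · exact Or.inl (Or.inl h')
        · exact Or.inr (Or.inl h')
      · exact Or.inl (Or.inr ⟨hu, h⟩)
  · rw [Finset.disjoint_left]
    intro u hu hu'
    simp only [Finset.mem_union, Finset.mem_filter] at hu hu'
    rcases hu with h | h <;> rcases hu' with h' | h'
    · exact Finset.disjoint_left.1 h2 h h'
    · linarith [(hA u h).2, h'.2]
    · linarith [(hB u h').2, h.2]
    · linarith [h.2, h'.2]

theorem count_of {G : SimpleGraph V} {S : Finset V}
    (hs : ∀ x : V → ℝ, (∀ K : Finset V, IsMaxClique G S K → ∑ v ∈ K, x v = 0) →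
      ∀ v ∈ S, x v = 0) :
    S.card ≤ (S.powerset.filter fun K => IsMaxClique G S K).card := by
  let C := S.powerset.filter fun K => IsMaxClique G S K
  let f : (S → ℝ) →ₗ[ℝ] (C → ℝ) :=
    { toFun := fun y K => ∑ v : S, if (v : V) ∈ (K : Finset V) then y v else 0
      map_add' := by
        intro y z
        funext K
        rw [Pi.add_apply, ← Finset.sum_add_distrib]
        refine Finset.sum_congr rfl fun v _ => ?_
        split_ifs
        · rfl
        · rw [add_zero]
      map_smul' := by
        intro a y
        funext K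
        rw [RingHom.id_apply, Pi.smul_apply, smul_eq_mul, Finset.mul_sum]
        refine Finset.sum_congr rfl fun v _ => ?_
        split_ifs
        · rfl
        · rw [mul_zero] }
  have hf : Function.Injective f := by
    rw [← LinearMap.ker_eq_bot, LinearMap.ker_eq_bot']
    intro y hy
    funext w
    let x : V → ℝ := fun v => if h : v ∈ S then y ⟨v, h⟩ else 0
    have hx : ∀ v : S, x v = y v := fun v => dif_pos v.2
    have h1 : ∀ K : Finset V, IsMaxClique G S K → ∑ v ∈ K, x v = 0 := by
      intro K hK
      have hKC : K ∈ C := Finset.mem_filter.2 ⟨Finset.mem_powerset.2 hK.1, hK⟩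
      have h2 : (∑ v : S, if (v : V) ∈ K then y v else 0) = 0 := congrFun hy ⟨K, hKC⟩
      have h3 : (∑ v : S, if (v : V) ∈ K then y v else 0) =
          ∑ v ∈ S, if v ∈ K then x v else 0 := by
        rw [← Finset.sum_coe_sort S fun v => if v ∈ K then x v else 0]
        refine Finset.sum_congr rfl fun v _ => ?_
        rw [hx v]
      rw [h3, ← Finset.sum_filter] at h2
      rw [← h2]
      refine Finset.sum_congr ?_ fun _ _ => rfl
      ext v
      rw [Finset.mem_filter]
      exact ⟨fun h => ⟨hK.1 h, h⟩, fun h => h.2⟩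
    rw [← hx w]
    exact hs x h1 w w.2
  have h5 := LinearMap.finrank_le_finrank_of_injective hf
  rw [Module.finrank_fintype_fun_eq_card, Module.finrank_fintype_fun_eq_card,
    Fintype.card_coe, Fintype.card_coe] at h5
  exact h5

/-- **Minimal obstructions.** `G` is 2-divisible if and only if every tight induced subgraph with
an edge has a partition into two parts with smaller clique numbers. -/
theorem result {V : Type} (G : SimpleGraph V) :
    TwoDivisible G ↔ ∀ S : Finset V, HasEdge G S → Tight G S → Splits G S := by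
  refine ⟨fun h S hS _ => h S hS, fun h => ?_⟩
  intro S
  induction S using Finset.strongInduction with
  | H S ih =>
    intro hS
    by_contra hn
    have hk := two_le_om hS
    exact hn (h S hS
      { prime := prime_of hk ih hn
        block := block_of hk ih hn
        dom := dom_of hk ih hn
        inter := inter_of hk ih hn
        anti := anti_of hk hn
        span := span_of hk ih hn
        many := many_of hk hn
        count := count_of (span_of hk ih hn) })

end Pool.Agent.Results.MP_e14f41_lc.MinimalObstructions
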