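import Mathlib

/-!
# 2-divisible graphs: a perfect graph together with `k` stable sets

Let the vertex set of the finite graph `G` be the union of `P` and `Pᶜ` where `P` induces a perfect
graph and `Pᶜ` induces a graph with chromatic number at most `k`. Then `G` is 2-divisible if and only
if `G` has no odd hole and every induced subgraph `H` with `3 ≤ ω(H) ≤ k + 1` can be split into two
parts of smaller clique number. For `k = 1` the second condition is void.
-/

namespace Pool.Agent.Results.MP_e14f41_lc.PerfectPlusStable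

open SimpleGraph

/-- The set `S` of vertices can be partitioned into two sets `A` and `B` which induce graphs of
smaller clique number. -/
def Splits {V : Type} (G : SimpleGraph V) (S : Set V) : Prop :=
  ∃ A B : Set V, A ∪ B = S ∧ Disjoint A B ∧ (G.induce A).cliqueNum < (G.induce S).cliqueNum ∧
    (G.induce B).cliqueNum < (G.induce S).cliqueNum

/-- 2-divisible graphs: every induced subgraph with an edge can be split. -/
def TwoDivisible {V : Type} (G : SimpleGraph V) : Prop :=
  ∀ S : Set V, (∃ u ∈ S, ∃ v ∈ S, G.Adj u v) → Splits G S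

/-- The set `P` of vertices induces a perfect graph. -/
def PerfectOn {V : Type} (G : SimpleGraph V) (P : Set V) : Prop :=
  ∀ S ⊆ P, (G.induce S).Colorable (G.induce S).cliqueNum

/-- There is no odd hole: no induced cycle of odd length at least five. -/
def OddHoleFree {V : Type} (G : SimpleGraph V) : Prop :=
  ∀ n, Odd n → 5 ≤ n → IsEmpty (cycleGraph n ↪g G)

variable {V : Type}

lemma cliqueNum_le_of_colorable {W : Type} {H : SimpleGraph W} {m : ℕ} (h : H.Colorable m) :
    H.cliqueNum ≤ m := by
  obtain ⟨s, hs⟩ := H.exists_isNClique_cliqueNum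
  rw [← hs.card_eq]
  exact hs.isClique.card_le_of_colorable h

lemma cliqueNum_mono {G : SimpleGraph V} [Finite V] {S T : Set V} (h : S ⊆ T) :
    (G.induce S).cliqueNum ≤ (G.induce T).cliqueNum := by
  obtain ⟨s, hs⟩ := (G.induce S).exists_isNClique_cliqueNum
  have hc : (G.induce T).IsClique
      ((s.map ⟨Set.inclusion h, Set.inclusion_injective h⟩ : Finset T) : Set T) := by
    intro x hx y hy hxy
    simp only [Finset.coe_map, Function.Embedding.coeFn_mk, Set.mem_image, Finset.mem_coe] at hx hy
    obtain ⟨a, ha, rfl⟩ := hx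
    obtain ⟨b, hb, rfl⟩ := hy
    exact hs.isClique ha hb (fun e => hxy (by rw [e]))
  have := hc.card_le_cliqueNum
  rwa [Finset.card_map, hs.card_eq] at this

lemma adj_of_cliqueNum {G : SimpleGraph V} {S : Set V} (h : 2 ≤ (G.induce S).cliqueNum) :
    ∃ u ∈ S, ∃ v ∈ S, G.Adj u v := by
  obtain ⟨s, hs⟩ := (G.induce S).exists_isNClique_cliqueNum
  have h1 : 1 < s.card := by rw [hs.card_eq]; omega
  obtain ⟨a, ha, b, hb, hab⟩ := Finset.one_lt_card.1 h1
  exact ⟨a, a.2, b, b.2, hs.isClique ha hb hab⟩

lemma two_le_cliqueNum {W : Type} [Finite W] {H : SimpleGraph W} {u v : W} (h : H.Adj u v) :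
    2 ≤ H.cliqueNum := by
  classical
  have hc : H.IsClique (({u, v} : Finset W) : Set W) := by
    rw [Finset.coe_pair, isClique_pair]
    exact fun _ => h
  have := hc.card_le_cliqueNum
  rwa [Finset.card_pair h.ne] at this

/-- A colouring with at most `2 (ω - 1)` colours gives a splitting. -/
lemma splits_of_colorable {G : SimpleGraph V} {S : Set V} {m : ℕ}
    (hc : (G.induce S).Colorable m) (hm : m ≤ 2 * ((G.induce S).cliqueNum - 1))
    (h2 : 2 ≤ (G.induce S).cliqueNum) : Splits G S := by
  obtain ⟨c⟩ := hc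
  set w := (G.induce S).cliqueNum with hw
  refine ⟨{v | ∃ h : v ∈ S, (c ⟨v, h⟩).val < w - 1}, {v | ∃ h : v ∈ S, w - 1 ≤ (c ⟨v, h⟩).val},
    ?_, ?_, ?_, ?_⟩
  · ext v
    constructor
    · rintro (⟨h, -⟩ | ⟨h, -⟩) <;> exact h
    · intro h
      rcases lt_or_ge (c ⟨v, h⟩).val (w - 1) with h' | h'
      · exact Or.inl ⟨h, h'⟩
      · exact Or.inr ⟨h, h'⟩
  · rw [Set.disjoint_left]
    rintro v ⟨h, h1⟩ ⟨h', h2⟩
    omega
  · have : (G.induce {v | ∃ h : v ∈ S, (c ⟨v, h⟩).val < w - 1}).Colorable (w - 1) := by
      refine ⟨Coloring.mk (fun v => ⟨(c ⟨v.1, v.2.1⟩).val, v.2.2⟩) ?_⟩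
      intro a b hab heq
      have := c.valid (v := ⟨a.1, a.2.1⟩) (w := ⟨b.1, b.2.1⟩) hab
      apply this
      ext
      simpa using congrArg Fin.val heq
    have := cliqueNum_le_of_colorable this
    omega
  · have : (G.induce {v | ∃ h : v ∈ S, w - 1 ≤ (c ⟨v, h⟩).val}).Colorable (w - 1) := by
      refine ⟨Coloring.mk (fun v => ⟨(c ⟨v.1, v.2.1⟩).val - (w - 1), ?_⟩) ?_⟩
      · have h1 := (c ⟨v.1, v.2.1⟩).isLt
        have h2 := v.2.2
        omega
      intro a b hab heq
      have := c.valid (v := ⟨a.1, a.2.1⟩) (w := ⟨b.1, b.2.1⟩) hab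
      apply this
      have h1 := a.2.2
      have h2 := b.2.2
      have h3 : (c ⟨a.1, a.2.1⟩).val - (w - 1) = (c ⟨b.1, b.2.1⟩).val - (w - 1) := by
        simpa using congrArg Fin.val heq
      ext
      omega
    have := cliqueNum_le_of_colorable this
    omega

/-- The number of colours of an induced subgraph. -/
lemma colorable_add {G : SimpleGraph V} [Finite V] {P : Set V} {k : ℕ} (hP : PerfectOn G P)
    (hX : (G.induce Pᶜ).Colorable k) (S : Set V) :
    (G.induce S).Colorable ((G.induce S).cliqueNum + k) := by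
  classical
  obtain ⟨c1⟩ := (hP (S ∩ P) Set.inter_subset_right).mono
    (cliqueNum_mono (G := G) (Set.inter_subset_left (s := S) (t := P)))
  obtain ⟨c2⟩ := hX
  have c : (G.induce S).Coloring (Fin (G.induce S).cliqueNum ⊕ Fin k) := by
    refine Coloring.mk (fun v => if h : v.1 ∈ P then Sum.inl (c1 ⟨v.1, v.2, h⟩)
      else Sum.inr (c2 ⟨v.1, h⟩)) ?_
    intro a b hab heq
    by_cases ha : a.1 ∈ P <;> by_cases hb : b.1 ∈ P <;> simp only [ha, hb, dif_pos, dif_neg,
      not_false_eq_true, Sum.inl.injEq, Sum.inr.injEq, reduceCtorEq] at heq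
    · exact c1.valid (v := ⟨a.1, a.2, ha⟩) (w := ⟨b.1, b.2, hb⟩) hab heq
    · exact c2.valid (v := ⟨a.1, ha⟩) (w := ⟨b.1, hb⟩) hab heq
  have := c.colorable
  simpa using this

/-! ## Graphs without triangles and odd holes are bipartite -/

lemma cyc_adj {n : ℕ} (hn : 2 ≤ n) {a b : Fin n} : (cycleGraph n).Adj a b ↔
    a.val = b.val + 1 ∨ b.val = a.val + 1 ∨ (a.val = 0 ∧ b.val + 1 = n) ∨
      (b.val = 0 ∧ a.val + 1 = n) := by
  have key : ∀ a b : Fin n, (a - b).val = 1 ↔ a.val = b.val + 1 ∨ (a.val = 0 ∧ b.val + 1 = n) := by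
    intro a b
    have ha := a.isLt
    have hb := b.isLt
    rw [Fin.sub_def]
    simp only
    rcases le_or_gt b.val a.val with h | h
    · have e : n - b.val + a.val = n + (a.val - b.val) := by omega
      rw [e, Nat.add_mod_left, Nat.mod_eq_of_lt (by omega)]
      omega
    · rw [Nat.mod_eq_of_lt (by omega)]
      omega
  rw [cycleGraph_adj', key, key]
  tauto

lemma colorable_two {W : Type} (H : SimpleGraph W) (h3 : H.CliqueFree 3) (hole : OddHoleFree H) :
    H.Colorable 2 := by
  classical
  rw [two_colorable_iff_forall_loop_even]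
  by_contra hcon
  push Not at hcon
  have hex : ∃ n, ∃ u, ∃ w : H.Walk u u, w.length = n ∧ Odd n := by
    obtain ⟨u, w, hw⟩ := hcon
    exact ⟨w.length, u, w, rfl, by simpa using hw⟩
  set n := Nat.find hex with hn
  obtain ⟨u, w, hlen, hodd⟩ := Nat.find_spec hex
  rw [← hn] at hlen hodd
  have hmin : ∀ m, m < n → ∀ v (p : H.Walk v v), p.length = m → ¬ Odd m := by
    intro m hm v p hp ho
    exact Nat.find_min hex hm ⟨v, p, hp, ho⟩
  -- walks between the vertices of the closed walk
  have hwalk : ∀ m i, i + m ≤ n → ∃ p : H.Walk (w.getVert i) (w.getVert (i + m)), p.length = m := by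
    intro m
    induction m with
    | zero => intro i _; exact ⟨Walk.nil, rfl⟩
    | succ m ih =>
      intro i him
      obtain ⟨p, hp⟩ := ih i (by omega)
      have hadj : H.Adj (w.getVert (i + m)) (w.getVert (i + m + 1)) :=
        w.adj_getVert_succ (by omega)
      exact ⟨p.concat hadj, by rw [Walk.length_concat, hp]⟩
  have h0 : w.getVert 0 = u := w.getVert_zero
  have hnn : w.getVert n = u := by rw [← hlen]; exact w.getVert_length
  -- inner and outer walks
  have inner : ∀ i j, i ≤ j → j ≤ n → ∃ p : H.Walk (w.getVert i) (w.getVert j), p.length = j - i := by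
    intro i j hij hj
    obtain ⟨p, hp⟩ := hwalk (j - i) i (by omega)
    have e : i + (j - i) = j := by omega
    exact ⟨p.copy rfl (by rw [e]), by simpa using hp⟩
  have outer : ∀ i j, i ≤ j → j ≤ n →
      ∃ p : H.Walk (w.getVert j) (w.getVert i), p.length = n - (j - i) := by
    intro i j hij hj
    obtain ⟨p, hp⟩ := inner j n hj le_rfl
    obtain ⟨q, hq⟩ := inner 0 i (by omega) (by omega)
    refine ⟨(p.copy rfl hnn).append (q.copy h0 rfl), ?_⟩
    rw [Walk.length_append, Walk.length_copy, Walk.length_copy, hp, hq]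
    omega
  have hinj : ∀ i j, i < j → j < n → w.getVert i ≠ w.getVert j := by
    intro i j hij hj heq
    obtain ⟨p, hp⟩ := inner i j hij.le hj.le
    obtain ⟨q, hq⟩ := outer i j hij.le hj.le
    have h1 := hmin (j - i) (by omega) _ (p.copy rfl heq.symm) (by simpa using hp)
    have h2 := hmin (n - (j - i)) (by omega) _ (q.copy heq.symm rfl) (by simpa using hq)
    rw [Nat.not_odd_iff_even] at h1 h2
    have h3 : Even ((j - i) + (n - (j - i))) := h1.add h2
    rw [show (j - i) + (n - (j - i)) = n by omega] at h3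
    exact (Nat.not_even_iff_odd.2 hodd) h3
  have hchord : ∀ i j, i < j → j < n → H.Adj (w.getVert i) (w.getVert j) →
      j = i + 1 ∨ (i = 0 ∧ j + 1 = n) := by
    intro i j hij hj hadj
    by_contra hno
    obtain ⟨p, hp⟩ := inner i j hij.le hj.le
    obtain ⟨q, hq⟩ := outer i j hij.le hj.le
    have h1 := hmin (j - i + 1) (by omega) _ (p.concat hadj.symm)
      (by rw [Walk.length_concat, hp])
    have h2 := hmin (n - (j - i) + 1) (by omega) _ (q.concat hadj)
      (by rw [Walk.length_concat, hq])
    rw [Nat.not_odd_iff_even] at h1 h2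
    have h3 : Even ((j - i + 1) + (n - (j - i) + 1)) := h1.add h2
    rw [show (j - i + 1) + (n - (j - i) + 1) = n + 2 by omega] at h3
    rw [Nat.even_add] at h3
    exact (Nat.not_even_iff_odd.2 hodd) (h3.2 even_two)
  have hcons : ∀ i, i < n → H.Adj (w.getVert i) (w.getVert (i + 1)) := fun i hi =>
    w.adj_getVert_succ (by omega)
  have hlast : ∀ m, m + 1 = n → H.Adj (w.getVert m) (w.getVert 0) := by
    intro m hm
    have := hcons m (by omega)
    rw [hm, hnn] at this
    rw [h0]
    exact this
  -- the length is at least five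
  have hn5 : 5 ≤ n := by
    by_contra hlt
    have hn13 : n = 1 ∨ n = 3 := by
      obtain ⟨t, ht⟩ := hodd
      omega
    rcases hn13 with h | h
    · have := hlast 0 (by omega)
      exact this.ne rfl
    · have a1 := hcons 0 (by omega)
      have a2 := hcons 1 (by omega)
      have a3 := hlast 2 (by omega)
      apply h3 {w.getVert 0, w.getVert 1, w.getVert 2}
      rw [is3Clique_triple_iff]
      exact ⟨a1, a3.symm, a2⟩
  have hemb : cycleGraph n ↪g H :=
    { toFun := fun i => w.getVert i.val
      inj' := by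
        intro i j hij
        by_contra hne
        have hne' : i.val ≠ j.val := fun h => hne (Fin.ext h)
        rcases lt_or_gt_of_ne hne' with h | h
        · exact hinj _ _ h j.isLt hij
        · exact hinj _ _ h i.isLt hij.symm
      map_rel_iff' := by
        intro i j
        have hi := i.isLt
        have hj := j.isLt
        rw [cyc_adj (by omega)]
        show H.Adj (w.getVert i.val) (w.getVert j.val) ↔ _
        constructor
        · intro h
          rcases lt_trichotomy i.val j.val with h' | h' | h'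
          · rcases hchord _ _ h' hj h with h'' | h''
            · exact Or.inr (Or.inl h'')
            · exact Or.inr (Or.inr (Or.inl h''))
          · rw [h'] at h
            exact absurd rfl h.ne
          · rcases hchord _ _ h' hi h.symm with h'' | h''
            · exact Or.inl h''
            · exact Or.inr (Or.inr (Or.inr h''))
        · rintro (h | h | ⟨h, h'⟩ | ⟨h, h'⟩)
          · rw [h]; exact (hcons _ hj).symm
          · rw [h]; exact hcons _ hi
          · rw [h]; exact (hlast _ h').symm
          · rw [h]; exact hlast _ h' }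
  exact (hole n hodd hn5).false hemb

/-! ## Odd holes do not split -/

lemma cycle_cliqueFree {n : ℕ} (hn : 4 ≤ n) : (cycleGraph n).CliqueFree 3 := by
  intro s hs
  rw [is3Clique_iff] at hs
  obtain ⟨a, b, c, hab, hac, hbc, -⟩ := hs
  rw [cyc_adj (by omega)] at hab hac hbc
  have ha := a.isLt
  have hb := b.isLt
  have hc := c.isLt
  omega

lemma not_splits_of_hole {G : SimpleGraph V} [Finite V] {n : ℕ} (hodd : Odd n) (h5 : 5 ≤ n)
    (e : cycleGraph n ↪g G) : ¬ Splits G (Set.range e) := by
  classical
  rintro ⟨A, B, hAB, -, hA, hB⟩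
  have h2 : (G.induce (Set.range e)).cliqueNum ≤ 2 := by
    obtain ⟨s, hs⟩ := (G.induce (Set.range e)).exists_isNClique_cliqueNum
    by_contra hlt
    push Not at hlt
    have hfree : (G.induce (Set.range e)).CliqueFree 3 := by
      intro t ht
      rw [is3Clique_iff] at ht
      obtain ⟨⟨_, a, rfl⟩, ⟨_, b, rfl⟩, ⟨_, c, rfl⟩, hab, hac, hbc, -⟩ := ht
      have hab' : (cycleGraph n).Adj a b := e.map_adj_iff.1 hab
      have hac' : (cycleGraph n).Adj a c := e.map_adj_iff.1 hac
      have hbc' : (cycleGraph n).Adj b c := e.map_adj_iff.1 hbc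
      exact cycle_cliqueFree (by omega : 4 ≤ n) {a, b, c}
        (is3Clique_triple_iff.2 ⟨hab', hac', hbc'⟩)
    exact hfree.mono hlt s hs
  have indep : ∀ C : Set V, (G.induce C).cliqueNum < (G.induce (Set.range e)).cliqueNum →
      ∀ u ∈ C, ∀ v ∈ C, ¬ G.Adj u v := by
    intro C hC u hu v hv huv
    have := two_le_cliqueNum (H := G.induce C) (u := ⟨u, hu⟩) (v := ⟨v, hv⟩) huv
    omega
  have hcol : (cycleGraph n).Colorable 2 := by
    refine ⟨Coloring.mk (fun i => if e i ∈ A then 0 else 1) ?_⟩
    intro i j hij heq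
    have hadj : G.Adj (e i) (e j) := e.map_adj_iff.2 hij
    have hmem : ∀ i, e i ∈ A ∨ e i ∈ B := fun i => by
      have : e i ∈ A ∪ B := by rw [hAB]; exact ⟨i, rfl⟩
      exact this
    by_cases hi : e i ∈ A <;> by_cases hj : e j ∈ A
    · exact indep A hA _ hi _ hj hadj
    · simp [hi, hj] at heq
    · simp [hi, hj] at heq
    · exact indep B hB _ ((hmem i).resolve_left hi) _ ((hmem j).resolve_left hj) hadj
  have h3 := chromaticNumber_cycleGraph_of_odd n (by omega) hodd
  have h4 := hcol.chromaticNumber_le
  rw [h3] at h4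
  exact absurd h4 (by decide)

/-- **Main result.** Let `V(G)` be the union of `P`, inducing a perfect graph, and `Pᶜ`, inducing a
graph of chromatic number at most `k`. Then `G` is 2-divisible if and only if it has no odd hole and
every induced subgraph with clique number between `3` and `k + 1` splits. -/
theorem result {V : Type} [Finite V] (G : SimpleGraph V) (P : Set V) (k : ℕ)
    (hP : PerfectOn G P) (hX : (G.induce Pᶜ).Colorable k) :
    TwoDivisible G ↔ OddHoleFree G ∧ ∀ S : Set V, 3 ≤ (G.induce S).cliqueNum →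
      (G.induce S).cliqueNum ≤ k + 1 → Splits G S := by
  constructor
  · intro h
    refine ⟨fun n hodd h5 => ⟨fun e => ?_⟩, fun S h3 _ => h S (adj_of_cliqueNum (by omega))⟩
    refine not_splits_of_hole hodd h5 e (h _ ?_)
    have hadj : (cycleGraph n).Adj (⟨0, by omega⟩ : Fin n) ⟨1, by omega⟩ := by
      rw [cyc_adj (by omega)]
      simp
    exact ⟨_, ⟨_, rfl⟩, _, ⟨_, rfl⟩, e.map_adj_iff.2 hadj⟩
  · rintro ⟨hole, hmid⟩ S ⟨u, hu, v, hv, huv⟩
    have h2 := two_le_cliqueNum (H := G.induce S) (u := ⟨u, hu⟩) (v := ⟨v, hv⟩) huv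
    rcases Nat.lt_or_ge (G.induce S).cliqueNum 3 with h | h
    · have e2 : (G.induce S).cliqueNum = 2 := by omega
      have hfree : (G.induce S).CliqueFree 3 := by
        intro t ht
        have := ht.isClique.card_le_cliqueNum
        rw [ht.card_eq] at this
        omega
      have hcol := colorable_two (G.induce S) hfree
        (fun n hodd h5 => ⟨fun e => (hole n hodd h5).false ((Embedding.induce S).comp e)⟩)
      exact splits_of_colorable hcol (by omega) h2
    · rcases Nat.lt_or_ge (k + 1) (G.induce S).cliqueNum with h' | h'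
      · exact splits_of_colorable (colorable_add hP hX S) (by omega) h2
      · exact hmid S h h'

end Pool.Agent.Results.MP_e14f41_lc.PerfectPlusStable
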