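import Mathlib

/-!
# Recognition of divisible graphs: prime graphs are not easier (MP_e14f41_lc)

Let `k ≥ 2`.  To a finite graph `G` with `n` vertices add a vertex adjacent to all others and then one
pendant vertex to each of the `n + 1` vertices.  The resulting graph, with `2 n + 2` vertices, contains `G`
as an induced subgraph, has no nontrivial homogeneous set, and is `k`-divisible if and only if `G` is.
-/

set_option autoImplicit false

namespace Pool.Agent.Results.MP_e14f41_lc.PrimeExtension

open Finset

/-- The vertices of `G[S]` can be coloured with `k` colours (not all need be used) such that no colour class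
contains a maximum clique of `G[S]`: some clique `M` of `G[S]` has more vertices than every clique of `G[S]`
all whose vertices have the same colour. -/
def Splits {V : Type} (k : ℕ) (G : SimpleGraph V) (S : Finset V) : Prop :=
  ∃ c : V → Fin k, ∃ M : Finset V, M ⊆ S ∧ G.IsClique (M : Set V) ∧
    ∀ K : Finset V, K ⊆ S → G.IsClique (K : Set V) → (∀ u ∈ K, ∀ w ∈ K, c u = c w) →
      K.card < M.card

/-- `G` is `k`-divisible: every (finite) induced subgraph with at least one edge splits. -/
def Divisible {V : Type} (k : ℕ) (G : SimpleGraph V) : Prop :=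
  ∀ S : Finset V, (∃ u ∈ S, ∃ w ∈ S, G.Adj u w) → Splits k G S

/-- `M` is a homogeneous set: every vertex outside `M` is adjacent to all vertices of `M` or to none. -/
def Homogeneous {V : Type} (G : SimpleGraph V) (M : Finset V) : Prop :=
  ∀ x, x ∉ M → (∀ m ∈ M, G.Adj x m) ∨ (∀ m ∈ M, ¬ G.Adj x m)

/-- `G` is prime: its homogeneous sets have at most one vertex or consist of all vertices. -/
def PrimeGraph {V : Type} [Fintype V] (G : SimpleGraph V) : Prop :=
  ∀ M : Finset V, Homogeneous G M → M.card ≤ 1 ∨ M = univ

/-- `G` with a new vertex `none` adjacent to all vertices of `G`. -/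
def cone {V : Type} (G : SimpleGraph V) : SimpleGraph (Option V) where
  Adj x y := match x, y with
    | none, none => False
    | none, some _ => True
    | some _, none => True
    | some u, some v => G.Adj u v
  symm := ⟨fun x y h => by
    rcases x with _ | u <;> rcases y with _ | v
    · exact h
    · trivial
    · trivial
    · exact G.adj_symm h⟩
  loopless := ⟨fun x h => by
    rcases x with _ | u
    · exact h
    · exact G.loopless.irrefl u h⟩

/-- `H` with a pendant vertex `inr a` attached to each vertex `inl a`. -/
def corona {V : Type} (H : SimpleGraph V) : SimpleGraph (V ⊕ V) where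
  Adj x y := match x, y with
    | .inl a, .inl b => H.Adj a b
    | .inl a, .inr b => a = b
    | .inr a, .inl b => a = b
    | .inr _, .inr _ => False
  symm := ⟨fun x y h => by
    rcases x with a | a <;> rcases y with b | b
    · exact H.adj_symm h
    · exact Eq.symm h
    · exact Eq.symm h
    · exact h⟩
  loopless := ⟨fun x h => by
    rcases x with a | a
    · exact H.loopless.irrefl a h
    · exact h⟩

theorem card_le_one_of {W : Type} {H : SimpleGraph W} {K : Finset W}
    (hc : H.IsClique (K : Set W)) (h : ∀ a ∈ K, ∀ b ∈ K, ¬ H.Adj a b) : K.card ≤ 1 := by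
  rw [card_le_one]
  intro a ha b hb
  by_contra hab
  exact h a ha b hb (hc (mem_coe.2 ha) (mem_coe.2 hb) hab)

theorem divisible_of_embedding {V W : Type} {k : ℕ} {G : SimpleGraph V} {H : SimpleGraph W}
    (f : G ↪g H) (h : Divisible k H) : Divisible k G := by
  intro S hS
  obtain ⟨u, hu, w, hw, huw⟩ := hS
  obtain ⟨c, M, hM, hMc, hc⟩ := h (S.map f.toEmbedding)
    ⟨f u, mem_map_of_mem _ hu, f w, mem_map_of_mem _ hw, f.map_adj_iff.2 huw⟩
  obtain ⟨M', hM', rfl⟩ := subset_map_iff.1 hM
  refine ⟨fun v => c (f v), M', hM', ?_, ?_⟩
  · intro a ha b hb hab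
    exact f.map_adj_iff.1 (hMc (mem_coe.2 (mem_map_of_mem _ (mem_coe.1 ha)))
      (mem_coe.2 (mem_map_of_mem _ (mem_coe.1 hb))) (f.injective.ne hab))
  · intro K hK hKc hm
    have h1 := hc (K.map f.toEmbedding) (map_subset_map.2 hK) (by
      intro x hx y hy hxy
      rw [mem_coe, mem_map] at hx hy
      obtain ⟨a, ha, rfl⟩ := hx
      obtain ⟨b, hb, rfl⟩ := hy
      exact f.map_adj_iff.2 (hKc (mem_coe.2 ha) (mem_coe.2 hb) fun e => hxy (by rw [e]))) (by
      intro x hx y hy
      rw [mem_map] at hx hy
      obtain ⟨a, ha, rfl⟩ := hx
      obtain ⟨b, hb, rfl⟩ := hy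
      exact hm a ha b hb)
    rwa [card_map, card_map] at h1

theorem divisible_cone {V : Type} {k : ℕ} (hk : 2 ≤ k) {G : SimpleGraph V}
    (h : Divisible k G) : Divisible k (cone G) := by
  classical
  intro S hS
  by_cases h0 : ∃ u ∈ eraseNone S, ∃ w ∈ eraseNone S, G.Adj u w
  · obtain ⟨c0, M0, hM0, hMc, hc⟩ := h _ h0
    have key : ∀ K : Finset (Option V), K ⊆ S → (cone G).IsClique (K : Set (Option V)) →
        (∀ u ∈ K, ∀ w ∈ K, Option.elim u (⟨0, by omega⟩ : Fin k) c0 =
          Option.elim w (⟨0, by omega⟩ : Fin k) c0) → (eraseNone K).card < M0.card := by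
      intro K hKS hK hm
      refine hc (eraseNone K) ?_ ?_ ?_
      · intro x hx
        rw [mem_eraseNone] at hx ⊢
        exact hKS hx
      · intro a ha b hb hab
        rw [mem_coe, mem_eraseNone] at ha hb
        exact hK (mem_coe.2 ha) (mem_coe.2 hb) fun e => hab (Option.some.inj e)
      · intro a ha b hb
        rw [mem_eraseNone] at ha hb
        exact hm _ ha _ hb
    have hmap : M0.map Function.Embedding.some ⊆ S := by
      intro x hx
      obtain ⟨a, ha, rfl⟩ := mem_map.1 hx
      exact mem_eraseNone.1 (hM0 ha)
    have hcl : (cone G).IsClique ((M0.map Function.Embedding.some : Finset (Option V)) :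
        Set (Option V)) := by
      intro x hx y hy hxy
      rw [mem_coe] at hx hy
      obtain ⟨a, ha, rfl⟩ := mem_map.1 hx
      obtain ⟨b, hb, rfl⟩ := mem_map.1 hy
      exact hMc (mem_coe.2 ha) (mem_coe.2 hb) fun e => hxy (by rw [e])
    have hK0 : ∀ K : Finset (Option V), (eraseNone K).card = (K.erase none).card := by
      intro K
      rw [← map_some_eraseNone, card_map]
    by_cases hn : none ∈ S
    · refine ⟨fun x => Option.elim x ⟨0, by omega⟩ c0,
        insert none (M0.map Function.Embedding.some), insert_subset hn hmap, ?_, ?_⟩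
      · intro x hx y hy hxy
        rw [mem_coe, mem_insert] at hx hy
        rcases hx with rfl | hx <;> rcases hy with rfl | hy
        · exact absurd rfl hxy
        · obtain ⟨b, hb, rfl⟩ := mem_map.1 hy
          trivial
        · obtain ⟨a, ha, rfl⟩ := mem_map.1 hx
          trivial
        · exact hcl (mem_coe.2 hx) (mem_coe.2 hy) hxy
      · intro K hKS hK hm
        have h1 := key K hKS hK hm
        rw [hK0] at h1
        have h2 : K.card ≤ (K.erase none).card + 1 := by
          have := pred_card_le_card_erase (s := K) (a := (none : Option V))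
          omega
        rw [card_insert_of_notMem (by
          intro hmem
          obtain ⟨a, _, ha⟩ := mem_map.1 hmem
          exact Option.some_ne_none a ha), card_map]
        omega
    · refine ⟨fun x => Option.elim x ⟨0, by omega⟩ c0, M0.map Function.Embedding.some, hmap,
        hcl, ?_⟩
      intro K hKS hK hm
      have h1 := key K hKS hK hm
      rw [hK0, erase_eq_of_notMem fun hmem => hn (hKS hmem)] at h1
      rwa [card_map]
  · obtain ⟨x, hx, y, hy, hxy⟩ := hS
    refine ⟨fun z => Option.elim z ⟨0, by omega⟩ fun _ => ⟨1, by omega⟩, {x, y}, ?_, ?_, ?_⟩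
    · intro z hz
      rw [mem_insert, mem_singleton] at hz
      rcases hz with rfl | rfl
      · exact hx
      · exact hy
    · intro a ha b hb hab
      rw [mem_coe, mem_insert, mem_singleton] at ha hb
      rcases ha with rfl | rfl <;> rcases hb with rfl | rfl
      · exact absurd rfl hab
      · exact hxy
      · exact hxy.symm
      · exact absurd rfl hab
    · intro K hKS hK hm
      rw [card_pair hxy.ne]
      refine lt_of_le_of_lt (card_le_one_of hK ?_) one_lt_two
      intro a ha b hb hab
      rcases a with _ | u <;> rcases b with _ | v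
      · exact hab
      · exact absurd (congrArg Fin.val (hm _ ha _ hb)) (by simp)
      · exact absurd (congrArg Fin.val (hm _ ha _ hb)) (by simp)
      · exact h0 ⟨u, mem_eraseNone.2 (hKS ha), v, mem_eraseNone.2 (hKS hb), hab⟩

theorem divisible_corona {V : Type} {k : ℕ} (hk : 2 ≤ k) {H : SimpleGraph V}
    (h : Divisible k H) : Divisible k (corona H) := by
  classical
  intro S hS
  by_cases h0 : ∃ u ∈ S.toLeft, ∃ w ∈ S.toLeft, H.Adj u w
  · obtain ⟨c0, M0, hM0, hMc, hc⟩ := h _ h0
    have h2 : 1 < M0.card := by
      obtain ⟨u, hu, -⟩ := h0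
      have := hc {u} (singleton_subset_iff.2 hu) (by
        intro a ha b hb hab
        rw [mem_coe, mem_singleton] at ha hb
        exact absurd (ha.trans hb.symm) hab) (by
        intro a ha b hb
        rw [mem_singleton] at ha hb
        rw [ha, hb])
      rwa [card_singleton] at this
    refine ⟨fun x => Sum.elim c0 (fun a => if c0 a = ⟨0, by omega⟩ then ⟨1, by omega⟩ else
      ⟨0, by omega⟩) x, M0.map Function.Embedding.inl, ?_, ?_, ?_⟩
    · intro x hx
      obtain ⟨a, ha, rfl⟩ := mem_map.1 hx
      exact mem_toLeft.1 (hM0 ha)
    · intro x hx y hy hxy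
      rw [mem_coe] at hx hy
      obtain ⟨a, ha, rfl⟩ := mem_map.1 hx
      obtain ⟨b, hb, rfl⟩ := mem_map.1 hy
      exact hMc (mem_coe.2 ha) (mem_coe.2 hb) fun e => hxy (by rw [e])
    · intro K hKS hK hm
      rw [card_map]
      by_cases hr : ∃ b, Sum.inr b ∈ K
      · obtain ⟨b, hb⟩ := hr
        have hsub : K ⊆ {Sum.inr b} := by
          intro x hx
          rw [mem_singleton]
          by_contra hne
          have hadj := hK (mem_coe.2 hx) (mem_coe.2 hb) hne
          rcases x with a | a
          · have hab : a = b := hadj
            subst hab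
            have hcol := hm _ hx _ hb
            simp only [Sum.elim_inl, Sum.elim_inr] at hcol
            split_ifs at hcol with hif
            · rw [hif] at hcol
              exact absurd (congrArg Fin.val hcol) (by simp)
            · exact hif hcol
          · exact hadj
        have := card_le_card hsub
        rw [card_singleton] at this
        omega
      · push Not at hr
        have hKL : K ⊆ K.toLeft.map Function.Embedding.inl := by
          intro x hx
          rcases x with a | a
          · exact mem_map.2 ⟨a, mem_toLeft.2 hx, rfl⟩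
          · exact absurd hx (hr a)
        have h3 := card_le_card hKL
        rw [card_map] at h3
        refine lt_of_le_of_lt h3 (hc K.toLeft ?_ ?_ ?_)
        · intro a ha
          exact mem_toLeft.2 (hKS (mem_toLeft.1 ha))
        · intro a ha b hb hab
          rw [mem_coe, mem_toLeft] at ha hb
          exact hK (mem_coe.2 ha) (mem_coe.2 hb) fun e => hab (Sum.inl.inj e)
        · intro a ha b hb
          exact hm _ (mem_toLeft.1 ha) _ (mem_toLeft.1 hb)
  · obtain ⟨x, hx, y, hy, hxy⟩ := hS
    refine ⟨fun z => Sum.elim (fun _ => ⟨0, by omega⟩) (fun _ => ⟨1, by omega⟩) z, {x, y},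
      ?_, ?_, ?_⟩
    · intro z hz
      rw [mem_insert, mem_singleton] at hz
      rcases hz with rfl | rfl
      · exact hx
      · exact hy
    · intro a ha b hb hab
      rw [mem_coe, mem_insert, mem_singleton] at ha hb
      rcases ha with rfl | rfl <;> rcases hb with rfl | rfl
      · exact absurd rfl hab
      · exact hxy
      · exact hxy.symm
      · exact absurd rfl hab
    · intro K hKS hK hm
      rw [card_pair hxy.ne]
      refine lt_of_le_of_lt (card_le_one_of hK ?_) one_lt_two
      intro a ha b hb hab
      rcases a with u | u <;> rcases b with v | v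
      · exact h0 ⟨u, mem_toLeft.2 (hKS ha), v, mem_toLeft.2 (hKS hb), hab⟩
      · exact absurd (congrArg Fin.val (hm _ ha _ hb)) (by simp)
      · exact absurd (congrArg Fin.val (hm _ ha _ hb)) (by simp)
      · exact hab

theorem prime_corona_cone {V : Type} [Fintype V] (G : SimpleGraph V) :
    PrimeGraph (corona (cone G)) := by
  classical
  intro M hM
  by_contra hcon
  push Not at hcon
  obtain ⟨hcard, hne⟩ := hcon
  obtain ⟨p, hp, q, hq, hpq⟩ := one_lt_card.1 hcard
  -- another element of `M`
  have other : ∀ x, ∃ y ∈ M, y ≠ x := by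
    intro x
    by_cases hx : p = x
    · exact ⟨q, hq, fun e => hpq (hx.trans e.symm)⟩
    · exact ⟨p, hp, hx⟩
  have h1 : ∀ a, Sum.inl a ∈ M → Sum.inr a ∈ M := by
    intro a ha
    by_contra hr
    obtain ⟨y, hy, hya⟩ := other (Sum.inl a)
    rcases hM _ hr with h | h
    · have hadj := h y hy
      rcases y with b | b
      · have : a = b := hadj
        exact hya (by rw [this])
      · exact hadj
    · exact h _ ha (show a = a from rfl)
  have h2 : ∀ a, Sum.inr a ∈ M → Sum.inl a ∈ M := by
    intro a ha
    by_contra hl
    obtain ⟨y, hy, hya⟩ := other (Sum.inr a)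
    rcases hM _ hl with h | h
    · have hadj := h y hy
      rcases y with b | b
      · have hb := h _ (h1 b hy)
        have hab : a = b := hb
        subst hab
        exact hl hy
      · have hab : a = b := hadj
        exact hya (by rw [hab])
    · exact h _ ha (show a = a from rfl)
  have h3 : ∀ a b, Sum.inl a ∈ M → (cone G).Adj b a → Sum.inl b ∈ M := by
    intro a b ha hba
    by_contra hb
    rcases hM _ hb with h | h
    · have hab : b = a := h _ (h1 a ha)
      exact (cone G).loopless.irrefl a (hab ▸ hba)
    · exact h _ ha (show (cone G).Adj b a from hba)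
  have h4 : Sum.inl none ∈ M := by
    have h5 : ∀ a, Sum.inl a ∈ M → (Sum.inl none : Option V ⊕ Option V) ∈ M := by
      intro a ha
      rcases a with _ | u
      · exact ha
      · exact h3 (some u) none ha trivial
    rcases p with a | a
    · exact h5 a hp
    · exact h5 a (h2 a hp)
  have h6 : ∀ a, Sum.inl a ∈ M := by
    intro a
    rcases a with _ | u
    · exact h4
    · exact h3 none (some u) h4 trivial
  apply hne
  rw [eq_univ_iff_forall]
  intro x
  rcases x with a | a
  · exact h6 a
  · exact h1 a (h6 a)

/-- `G` is an induced subgraph of `corona (cone G)`. -/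
def embed {V : Type} (G : SimpleGraph V) : G ↪g corona (cone G) where
  toFun v := Sum.inl (some v)
  inj' := fun _ _ h => Option.some.inj (Sum.inl.inj h)
  map_rel_iff' := Iff.rfl

/-- **Prime graphs are not easier**: `corona (cone G)` has `2 n + 2` vertices, contains `G` as an induced
subgraph, is prime, and is `k`-divisible if and only if `G` is. -/
theorem result (k : ℕ) (hk : 2 ≤ k) (V : Type) [Fintype V] (G : SimpleGraph V) :
    Fintype.card (Option V ⊕ Option V) = 2 * Fintype.card V + 2 ∧
      Nonempty (G ↪g corona (cone G)) ∧ PrimeGraph (corona (cone G)) ∧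
      (Divisible k (corona (cone G)) ↔ Divisible k G) := by
  refine ⟨?_, ⟨embed G⟩, prime_corona_cone G, fun h => divisible_of_embedding (embed G) h,
    fun h => divisible_corona hk (divisible_cone hk h)⟩
  rw [Fintype.card_sum, Fintype.card_option]
  ring

end Pool.Agent.Results.MP_e14f41_lc.PrimeExtension
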